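import Mathlib
import Pool.Agent.Lib.P325f1f.Dich.Noise

/-!
# Correlated sampling in rounds

Two parties look at the same sequence of random objects and stop at the first one that suits them.
If in a single round a disagreement is much less likely than a success, they agree with high
probability.
-/

open Finset
open scoped BigOperators

namespace Pool.Agent.P325f1f.Amen

/-- The outcome of the first successful round; `o` if there is none. -/
def lab {Θ Ω : Type} (P : Θ → Option Ω) (o : Ω) : (n : ℕ) → (Fin n → Θ) → Ω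
  | 0, _ => o
  | n + 1, ρ => (P (ρ 0)).getD (lab P o n (fun i => ρ i.succ))

theorem expect_cons {Θ : Type} [Fintype Θ] (n : ℕ) (f : (Fin (n + 1) → Θ) → ℝ) :
    (𝔼 ρ, f ρ) = 𝔼 θ : Θ, 𝔼 ρ : Fin n → Θ, f (Fin.cons θ ρ) := by
  rw [← Dich.expect_pair (fun p : Θ × (Fin n → Θ) => f (Fin.cons p.1 p.2))]
  exact (Fintype.expect_equiv (Fin.consEquiv (fun _ => Θ)) _ _ (fun p => rfl)).symm

theorem rounds {Θ Ω : Type} [Fintype Θ] [Nonempty Θ] [DecidableEq Ω] (P Q : Θ → Option Ω)
    (π : Ω → Ω) (a b : Ω) (p L : ℝ) (hp0 : 0 ≤ p) (hL : 0 ≤ L)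
    (hP : p ≤ 𝔼 θ, if P θ = none then (0 : ℝ) else 1)
    (hbad : (𝔼 θ, if (P θ = none ∧ Q θ = none) ∨ (∃ ω, P θ = some ω ∧ Q θ = some (π ω))
      then (0 : ℝ) else 1) ≤ L * p) (n : ℕ) :
    (𝔼 ρ : Fin n → Θ, if π (lab P a n ρ) = lab Q b n ρ then (0 : ℝ) else 1) ≤
      L + (1 - p) ^ n := by
  have hp1 : p ≤ 1 :=
    hP.trans (Finset.expect_le Finset.univ_nonempty (fun θ _ => by split_ifs <;> norm_num))
  induction n with
  | zero =>
    rw [pow_zero]
    have h1 : (𝔼 ρ : Fin 0 → Θ, if π (lab P a 0 ρ) = lab Q b 0 ρ then (0 : ℝ) else 1) ≤ 1 :=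
      Finset.expect_le Finset.univ_nonempty (fun θ _ => by split_ifs <;> norm_num)
    linarith
  | succ n ih =>
    rw [expect_cons]
    set q := 𝔼 ρ : Fin n → Θ, if π (lab P a n ρ) = lab Q b n ρ then (0 : ℝ) else 1 with hq
    have hq0 : 0 ≤ q := Finset.expect_nonneg (fun θ _ => by split_ifs <;> norm_num)
    have h1 : ∀ θ : Θ, (𝔼 ρ : Fin n → Θ, if π (lab P a (n + 1) (Fin.cons θ ρ)) =
        lab Q b (n + 1) (Fin.cons θ ρ) then (0 : ℝ) else 1) ≤
        (if (P θ = none ∧ Q θ = none) ∨ (∃ ω, P θ = some ω ∧ Q θ = some (π ω))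
          then (0 : ℝ) else 1) + (1 - (if P θ = none then (0 : ℝ) else 1)) * q := by
      intro θ
      have h2 : ∀ ρ : Fin n → Θ, lab P a (n + 1) (Fin.cons θ ρ) = (P θ).getD (lab P a n ρ) := by
        intro ρ
        rw [lab]
        simp
      have h3 : ∀ ρ : Fin n → Θ, lab Q b (n + 1) (Fin.cons θ ρ) = (Q θ).getD (lab Q b n ρ) := by
        intro ρ
        rw [lab]
        simp
      simp only [h2, h3]
      by_cases hc : (P θ = none ∧ Q θ = none) ∨ (∃ ω, P θ = some ω ∧ Q θ = some (π ω))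
      · rw [if_pos hc, zero_add]
        rcases hc with ⟨e1, e2⟩ | ⟨ω, e1, e2⟩
        · rw [e1, e2, if_pos rfl, sub_zero, one_mul]
          exact le_of_eq rfl
        · rw [e1, e2]
          simp
      · rw [if_neg hc]
        have h4 : (𝔼 ρ : Fin n → Θ, if π ((P θ).getD (lab P a n ρ)) =
            (Q θ).getD (lab Q b n ρ) then (0 : ℝ) else 1) ≤ 1 :=
          Finset.expect_le Finset.univ_nonempty (fun θ _ => by split_ifs <;> norm_num)
        have h5 : 0 ≤ (1 - (if P θ = none then (0 : ℝ) else 1)) * q := by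
          split_ifs
          · simpa using hq0
          · simp
        linarith
    refine (Finset.expect_le_expect (fun θ _ => h1 θ)).trans ?_
    rw [Finset.expect_add_distrib, ← Finset.expect_mul, Finset.expect_sub_distrib,
      Fintype.expect_const]
    set e := 𝔼 θ, (if P θ = none then (0 : ℝ) else 1) with he
    have h6 : (1 - e) * q ≤ (1 - p) * q := mul_le_mul_of_nonneg_right (by linarith) hq0
    have h7 : (1 - p) * q ≤ (1 - p) * (L + (1 - p) ^ n) :=
      mul_le_mul_of_nonneg_left ih (by linarith)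
    have h8 : (1 - p) * (L + (1 - p) ^ n) = L - L * p + (1 - p) ^ (n + 1) := by ring
    linarith

end Pool.Agent.P325f1f.Amen
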