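import Mathlib
import Pool.Agent.Lib.P325f1f.Dich.Noise

/-!
# Locality sensitive hashing with random signs

A vector `v` is hashed to the bucket of `∑ i, ± v i`, with a random shift. Close vectors usually get
the same value, and orthonormal vectors get different values with probability at least `1 / 10`.
-/

open Finset
open scoped BigOperators

namespace Pool.Agent.P325f1f.Amen

/-! ## Buckets -/

section bucket

/-- The bucket of a real number, for the shift `j / m`. -/
noncomputable def bucket (m : ℕ) (j : Fin m) (x : ℝ) : ℤ :=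
  (⌊(m : ℝ) * x⌋ + (j.val : ℤ)) / (m : ℤ)

theorem sum_ediv_succ (m : ℕ) (hm : 0 < m) (n : ℤ) :
    ∑ j ∈ Finset.range m, ((n + 1 + (j : ℤ)) / (m : ℤ)) =
      (∑ j ∈ Finset.range m, ((n + (j : ℤ)) / (m : ℤ))) + 1 := by
  have h1 := Finset.sum_range_sub (fun j : ℕ => (n + (j : ℤ)) / (m : ℤ)) m
  rw [Finset.sum_sub_distrib] at h1
  have h2 : (n + (m : ℤ)) / (m : ℤ) = n / (m : ℤ) + 1 :=
    Int.add_ediv_of_dvd_right (dvd_refl _) |>.trans (by
      rw [Int.ediv_self (by exact_mod_cast hm.ne')])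
  have h3 : ∀ j : ℕ, (n + ((j + 1 : ℕ) : ℤ)) / (m : ℤ) = (n + 1 + (j : ℤ)) / (m : ℤ) := by
    intro j
    congr 1
    push_cast
    ring
  simp only [h3, h2, Nat.cast_zero, add_zero] at h1
  linarith

theorem sum_ediv_sub (m : ℕ) (hm : 0 < m) (n : ℤ) (r : ℕ) :
    ∑ j ∈ Finset.range m, ((n + (r : ℤ) + (j : ℤ)) / (m : ℤ)) =
      (∑ j ∈ Finset.range m, ((n + (j : ℤ)) / (m : ℤ))) + r := by
  induction r with
  | zero => simp
  | succ r ih =>
    have h1 := sum_ediv_succ m hm (n + r)
    have h2 : n + ((r + 1 : ℕ) : ℤ) = n + (r : ℤ) + 1 := by push_cast; ring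
    rw [h2, h1, ih]
    push_cast
    ring

/-- The number of shifts separating two integers. -/
theorem card_sep_le (m : ℕ) (hm : 0 < m) (n n' : ℤ) (h : n ≤ n') :
    ((univ.filter (fun j : Fin m => (n + (j.val : ℤ)) / (m : ℤ) ≠
      (n' + (j.val : ℤ)) / (m : ℤ))).card : ℤ) ≤ n' - n := by
  obtain ⟨r, hr⟩ := Int.eq_ofNat_of_zero_le (sub_nonneg.2 h)
  have h1 := sum_ediv_sub m hm n r
  have hn' : n' = n + r := by omega
  rw [← hn'] at h1
  have hmi : (0 : ℤ) < m := by exact_mod_cast hm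
  rw [Finset.card_filter, Nat.cast_sum]
  have h2 : ∀ j : Fin m, (((if (n + (j.val : ℤ)) / (m : ℤ) ≠ (n' + (j.val : ℤ)) / (m : ℤ)
      then 1 else 0 : ℕ) : ℤ)) ≤
      (n' + (j.val : ℤ)) / (m : ℤ) - (n + (j.val : ℤ)) / (m : ℤ) := by
    intro j
    have h3 : (n + (j.val : ℤ)) / (m : ℤ) ≤ (n' + (j.val : ℤ)) / (m : ℤ) :=
      Int.ediv_le_ediv hmi (by linarith)
    split_ifs with h4
    · have : (n + (j.val : ℤ)) / (m : ℤ) < (n' + (j.val : ℤ)) / (m : ℤ) := lt_of_le_of_ne h3 h4
      push_cast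
      omega
    · push_cast
      omega
  refine (Finset.sum_le_sum (fun j _ => h2 j)).trans (le_of_eq ?_)
  rw [Finset.sum_sub_distrib]
  have h5 : ∀ f : ℕ → ℤ, ∑ j : Fin m, f j.val = ∑ j ∈ Finset.range m, f j :=
    fun f => Fin.sum_univ_eq_sum_range f m
  rw [h5 (fun j => (n' + (j : ℤ)) / (m : ℤ)), h5 (fun j => (n + (j : ℤ)) / (m : ℤ)), h1]
  omega

/-- Close numbers are rarely separated. -/
theorem bucket_close (m : ℕ) (hm : 0 < m) (x y : ℝ) :
    (𝔼 j : Fin m, if bucket m j x ≠ bucket m j y then (1 : ℝ) else 0) ≤ |x - y| + 1 / m := by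
  have hmr : (0 : ℝ) < m := by exact_mod_cast hm
  rw [Fintype.expect_eq_sum_div_card, Finset.sum_boole, Fintype.card_fin, div_le_iff₀ hmr]
  have key : ∀ x y : ℝ, x ≤ y → ((univ.filter (fun j : Fin m =>
      bucket m j x ≠ bucket m j y)).card : ℝ) ≤ (|x - y| + 1 / m) * m := by
    intro x y hxy
    have h0 : ⌊(m : ℝ) * x⌋ ≤ ⌊(m : ℝ) * y⌋ :=
      Int.floor_le_floor (mul_le_mul_of_nonneg_left hxy hmr.le)
    have h1 := card_sep_le m hm _ _ h0
    have h2 : ((univ.filter (fun j : Fin m =>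
      bucket m j x ≠ bucket m j y)).card : ℝ) ≤ (⌊(m : ℝ) * y⌋ : ℝ) - ⌊(m : ℝ) * x⌋ := by
      exact_mod_cast h1
    have h3 := Int.floor_le ((m : ℝ) * y)
    have h4 := Int.lt_floor_add_one ((m : ℝ) * x)
    have h5 : |x - y| = y - x := by
      rw [abs_sub_comm]
      exact abs_of_nonneg (by linarith)
    rw [h5, add_mul, one_div, inv_mul_cancel₀ hmr.ne']
    linarith
  rcases le_total x y with h | h
  · exact key x y h
  · have h1 := key y x h
    rw [abs_sub_comm] at h1
    refine le_trans (le_of_eq ?_) h1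
    congr 2
    ext j
    simp only [Finset.mem_filter, mem_univ, true_and]
    exact ne_comm

/-- Far numbers are always separated. -/
theorem bucket_far (m : ℕ) (hm : 0 < m) (j : Fin m) (x y : ℝ) (h : 1 ≤ |x - y|) :
    bucket m j x ≠ bucket m j y := by
  have hmr : (0 : ℝ) < m := by exact_mod_cast hm
  have hmi : (0 : ℤ) < m := by exact_mod_cast hm
  have key : ∀ x y : ℝ, x + 1 ≤ y → bucket m j x < bucket m j y := by
    intro x y hxy
    have h1 : ⌊(m : ℝ) * x⌋ + (m : ℤ) ≤ ⌊(m : ℝ) * y⌋ := by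
      rw [Int.le_floor]
      push_cast
      have h2 := Int.floor_le ((m : ℝ) * x)
      nlinarith
    have h3 : (⌊(m : ℝ) * x⌋ + (j.val : ℤ) + (m : ℤ)) / (m : ℤ) ≤
        (⌊(m : ℝ) * y⌋ + (j.val : ℤ)) / (m : ℤ) := Int.ediv_le_ediv hmi (by linarith)
    have h4 : (⌊(m : ℝ) * x⌋ + (j.val : ℤ) + (m : ℤ)) / (m : ℤ) =
        (⌊(m : ℝ) * x⌋ + (j.val : ℤ)) / (m : ℤ) + 1 :=
      Int.add_ediv_of_dvd_right (dvd_refl _) |>.trans (by
        rw [Int.ediv_self hmi.ne'])
    rw [h4] at h3
    unfold bucket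
    omega
  rcases le_abs.1 h with h1 | h1
  · exact (key y x (by linarith)).ne'
  · exact (key x y (by linarith)).ne

end bucket

/-! ## Random signs -/

section signs

variable {ι : Type} [Fintype ι] [DecidableEq ι]

/-- A sign. -/
def sgn (b : Bool) : ℝ := if b then 1 else -1

theorem sgn_sq (b : Bool) : sgn b ^ 2 = 1 := by cases b <;> norm_num [sgn]

theorem sgn_not (b : Bool) : sgn (!b) = - sgn b := by cases b <;> norm_num [sgn]

/-- Flip one sign. -/
def flip (i : ι) (g : ι → Bool) : ι → Bool := Function.update g i (!(g i))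

omit [Fintype ι] in
theorem flip_flip (i : ι) (g : ι → Bool) : flip i (flip i g) = g := by
  funext j
  by_cases h : j = i
  · subst h
    simp [flip]
  · simp [flip, h]

theorem expect_sgn_mul (i : ι) (f : (ι → Bool) → ℝ) (hf : ∀ g, f (flip i g) = f g) :
    (𝔼 g, f g * sgn (g i)) = 0 := by
  have h1 : (𝔼 g, f g * sgn (g i)) = 𝔼 g, f (flip i g) * sgn (flip i g i) :=
    (Fintype.expect_bijective (flip i) (Function.Involutive.bijective (flip_flip i)) _ _
      (fun g => rfl)).symm
  have h2 : ∀ g : ι → Bool, f (flip i g) * sgn (flip i g i) = - (f g * sgn (g i)) := by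
    intro g
    rw [hf, flip, Function.update_self, sgn_not]
    ring
  rw [Finset.expect_congr rfl (fun g _ => h2 g), Finset.expect_neg_distrib] at h1
  linarith

/-- The random sum over a set of coordinates. -/
def rsum (s : Finset ι) (g : ι → Bool) (z : ι → ℝ) : ℝ := ∑ i ∈ s, sgn (g i) * z i

omit [Fintype ι] in
theorem rsum_flip (s : Finset ι) (i : ι) (hi : i ∉ s) (g : ι → Bool) (z : ι → ℝ) :
    rsum s (flip i g) z = rsum s g z := by
  refine Finset.sum_congr rfl (fun j hj => ?_)
  have h : j ≠ i := fun h => hi (h ▸ hj)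
  rw [flip, Function.update_of_ne h]

theorem rsum_sq (s : Finset ι) (z : ι → ℝ) : (𝔼 g, rsum s g z ^ 2) = ∑ i ∈ s, z i ^ 2 := by
  induction s using Finset.induction_on with
  | empty => simp [rsum]
  | insert i s hi ih =>
    have h1 : ∀ g : ι → Bool, rsum (insert i s) g z ^ 2 =
        rsum s g z ^ 2 + (2 * z i * rsum s g z) * sgn (g i) + z i ^ 2 := by
      intro g
      have h2 : rsum (insert i s) g z = sgn (g i) * z i + rsum s g z := by
        rw [rsum, Finset.sum_insert hi]
        rfl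
      have h3 := sgn_sq (g i)
      rw [h2]
      linear_combination (z i ^ 2) * h3
    rw [Finset.expect_congr rfl (fun g _ => h1 g), Finset.expect_add_distrib,
      Finset.expect_add_distrib, ih, Finset.sum_insert hi,
      expect_sgn_mul i (fun g => 2 * z i * rsum s g z)
        (fun g => by rw [rsum_flip s i hi]), Fintype.expect_const]
    ring

theorem rsum_four (s : Finset ι) (z : ι → ℝ) :
    (𝔼 g, rsum s g z ^ 4) ≤ 3 * (∑ i ∈ s, z i ^ 2) ^ 2 := by
  induction s using Finset.induction_on with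
  | empty => simp [rsum]
  | insert i s hi ih =>
    have h1 : ∀ g : ι → Bool, rsum (insert i s) g z ^ 4 =
        rsum s g z ^ 4 + (4 * z i * rsum s g z ^ 3 + 4 * z i ^ 3 * rsum s g z) * sgn (g i) +
        6 * z i ^ 2 * rsum s g z ^ 2 + z i ^ 4 := by
      intro g
      have h2 : rsum (insert i s) g z = sgn (g i) * z i + rsum s g z := by
        rw [rsum, Finset.sum_insert hi]
        rfl
      rw [h2]
      rcases (g i) with _ | _
      · simp only [sgn]
        norm_num
        ring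
      · simp only [sgn]
        norm_num
        ring
    rw [Finset.expect_congr rfl (fun g _ => h1 g), Finset.expect_add_distrib,
      Finset.expect_add_distrib, Finset.expect_add_distrib, Finset.sum_insert hi,
      expect_sgn_mul i (fun g => 4 * z i * rsum s g z ^ 3 + 4 * z i ^ 3 * rsum s g z)
        (fun g => by rw [rsum_flip s i hi]), Fintype.expect_const, ← Finset.mul_expect,
      rsum_sq]
    have h5 : 0 ≤ z i ^ 4 := by positivity
    nlinarith [h5]

/-- The random sum. -/
def dot (g : ι → Bool) (z : ι → ℝ) : ℝ := ∑ i, sgn (g i) * z i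

omit [DecidableEq ι] in
theorem dot_sub (g : ι → Bool) (v w : ι → ℝ) : dot g v - dot g w = dot g (fun i => v i - w i) := by
  rw [dot, dot, dot, ← Finset.sum_sub_distrib]
  exact Finset.sum_congr rfl (fun i _ => by ring)

theorem dot_sq (z : ι → ℝ) : (𝔼 g, dot g z ^ 2) = ∑ i, z i ^ 2 := rsum_sq univ z

theorem dot_four (z : ι → ℝ) : (𝔼 g, dot g z ^ 4) ≤ 3 * (∑ i, z i ^ 2) ^ 2 := rsum_four univ z

/-- Close vectors rarely get different values. -/
theorem hash_close (m : ℕ) (hm : 0 < m) (v w : ι → ℝ) (α : ℝ) (hα : 0 < α) :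
    (𝔼 p : (ι → Bool) × Fin m, if bucket m p.2 (dot p.1 v) ≠ bucket m p.2 (dot p.1 w)
      then (1 : ℝ) else 0) ≤ α + (∑ i, (v i - w i) ^ 2) / (4 * α) + 1 / m := by
  rw [Dich.expect_pair]
  have h1 : ∀ g : ι → Bool, (𝔼 j : Fin m, if bucket m j (dot g v) ≠ bucket m j (dot g w)
      then (1 : ℝ) else 0) ≤ (α + 1 / m) + dot g (fun i => v i - w i) ^ 2 / (4 * α) := by
    intro g
    refine (bucket_close m hm _ _).trans ?_
    rw [dot_sub]
    set y := dot g (fun i => v i - w i) with hy
    have h2 : |y| ≤ α + y ^ 2 / (4 * α) := by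
      have h3 : α + y ^ 2 / (4 * α) - |y| = (|y| - 2 * α) ^ 2 / (4 * α) := by
        field_simp
        rw [← sq_abs y]
        ring
      have h4 : 0 ≤ (|y| - 2 * α) ^ 2 / (4 * α) := by positivity
      linarith
    linarith
  refine (Finset.expect_le_expect (fun g _ => h1 g)).trans (le_of_eq ?_)
  rw [Finset.expect_add_distrib, Fintype.expect_const]
  have h5 : (𝔼 g : ι → Bool, dot g (fun i => v i - w i) ^ 2 / (4 * α)) =
      (∑ i, (v i - w i) ^ 2) / (4 * α) := by
    rw [← dot_sq, Finset.expect_div]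
  rw [h5]
  ring

/-- Orthonormal vectors often get different values. -/
theorem hash_far (m : ℕ) (hm : 0 < m) (v w : ι → ℝ) (hvw : ∑ i, (v i - w i) ^ 2 = 2) :
    (𝔼 p : (ι → Bool) × Fin m, if bucket m p.2 (dot p.1 v) = bucket m p.2 (dot p.1 w)
      then (1 : ℝ) else 0) ≤ 9 / 10 := by
  have hne : Nonempty (Fin m) := ⟨⟨0, hm⟩⟩
  rw [Dich.expect_pair]
  have h1 : ∀ g : ι → Bool, (𝔼 j : Fin m, if bucket m j (dot g v) = bucket m j (dot g w)
      then (1 : ℝ) else 0) ≤ 1 - ((dot g (fun i => v i - w i) ^ 2 - 1) / 5 -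
        dot g (fun i => v i - w i) ^ 4 / 120) := by
    intro g
    set y := dot g (fun i => v i - w i) with hy
    by_cases h : 1 ≤ |y|
    · have h2 : ∀ j : Fin m, (if bucket m j (dot g v) = bucket m j (dot g w)
          then (1 : ℝ) else 0) = 0 := by
        intro j
        rw [if_neg]
        exact bucket_far m hm j _ _ (by rw [dot_sub]; exact h)
      rw [Finset.expect_congr rfl (fun j _ => h2 j), Fintype.expect_const]
      nlinarith [sq_nonneg (y ^ 2 - 12)]
    · push Not at h
      have h2 : (𝔼 j : Fin m, if bucket m j (dot g v) = bucket m j (dot g w)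
          then (1 : ℝ) else 0) ≤ 1 :=
        Finset.expect_le Finset.univ_nonempty (fun j _ => by split_ifs <;> norm_num)
      have h3 : y ^ 2 ≤ 1 := by
        rw [← sq_abs]
        have := abs_nonneg y
        nlinarith
      have h4 : 0 ≤ y ^ 4 := by positivity
      linarith
  refine (Finset.expect_le_expect (fun g _ => h1 g)).trans ?_
  rw [Finset.expect_sub_distrib, Fintype.expect_const, Finset.expect_sub_distrib,
    ← Finset.expect_div, ← Finset.expect_div, Finset.expect_sub_distrib, Fintype.expect_const,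
    dot_sq, hvw]
  have h6 := dot_four (fun i => v i - w i)
  rw [hvw] at h6
  linarith

end signs

/-! ## Signatures -/

section sig

variable {ι : Type} [Fintype ι] [DecidableEq ι]

/-- The signature of a vector. -/
noncomputable def sig (k m : ℕ) (θ : Fin k → (ι → Bool) × Fin m) (v : ι → ℝ) : Fin k → ℤ :=
  fun l => bucket m (θ l).2 (dot (θ l).1 v)

theorem sig_close (k m : ℕ) (hm : 0 < m) (v w : ι → ℝ) (α : ℝ) (hα : 0 < α) :
    (𝔼 θ : Fin k → (ι → Bool) × Fin m, if sig k m θ v ≠ sig k m θ w then (1 : ℝ) else 0) ≤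
      k * (α + (∑ i, (v i - w i) ^ 2) / (4 * α) + 1 / m) := by
  have hne : Nonempty (Fin m) := ⟨⟨0, hm⟩⟩
  have h1 : ∀ θ : Fin k → (ι → Bool) × Fin m, (if sig k m θ v ≠ sig k m θ w
      then (1 : ℝ) else 0) ≤ ∑ l, if bucket m (θ l).2 (dot (θ l).1 v) ≠
        bucket m (θ l).2 (dot (θ l).1 w) then (1 : ℝ) else 0 := by
    intro θ
    have hnn : ∀ l ∈ univ, (0 : ℝ) ≤ if bucket m (θ l).2 (dot (θ l).1 v) ≠
        bucket m (θ l).2 (dot (θ l).1 w) then (1 : ℝ) else 0 := by
      intro l _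
      split_ifs <;> norm_num
    by_cases h : sig k m θ v = sig k m θ w
    · rw [if_neg (fun h' => h' h)]
      exact Finset.sum_nonneg hnn
    · rw [if_pos h]
      obtain ⟨l, hl⟩ : ∃ l, sig k m θ v l ≠ sig k m θ w l := by
        by_contra hcon
        push Not at hcon
        exact h (funext hcon)
      exact le_trans (le_of_eq (if_pos hl).symm) (Finset.single_le_sum hnn (mem_univ l))
  refine (Finset.expect_le_expect (fun θ _ => h1 θ)).trans ?_
  rw [Finset.expect_sum_comm]
  have h2 : ∀ l : Fin k, (𝔼 θ : Fin k → (ι → Bool) × Fin m,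
      if bucket m (θ l).2 (dot (θ l).1 v) ≠ bucket m (θ l).2 (dot (θ l).1 w)
        then (1 : ℝ) else 0) ≤ α + (∑ i, (v i - w i) ^ 2) / (4 * α) + 1 / m := by
    intro l
    rw [Dich.expect_coord l (fun p : (ι → Bool) × Fin m =>
      if bucket m p.2 (dot p.1 v) ≠ bucket m p.2 (dot p.1 w) then (1 : ℝ) else 0)]
    exact hash_close m hm v w α hα
  refine (Finset.sum_le_sum (fun l _ => h2 l)).trans (le_of_eq ?_)
  rw [Finset.sum_const, Finset.card_univ, Fintype.card_fin, nsmul_eq_mul]

theorem sig_far (k m : ℕ) (hm : 0 < m) (v w : ι → ℝ) (hvw : ∑ i, (v i - w i) ^ 2 = 2) :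
    (𝔼 θ : Fin k → (ι → Bool) × Fin m, if sig k m θ v = sig k m θ w then (1 : ℝ) else 0) ≤
      (9 / 10) ^ k := by
  have hne : Nonempty (Fin m) := ⟨⟨0, hm⟩⟩
  have h1 : ∀ θ : Fin k → (ι → Bool) × Fin m, (if sig k m θ v = sig k m θ w
      then (1 : ℝ) else 0) = ∏ l, if bucket m (θ l).2 (dot (θ l).1 v) =
        bucket m (θ l).2 (dot (θ l).1 w) then (1 : ℝ) else 0 := by
    intro θ
    rw [Finset.prod_ite_zero]
    simp only [Finset.prod_const_one]
    congr 1
    rw [eq_iff_iff]
    constructor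
    · intro h l _
      exact congrFun h l
    · intro h
      funext l
      exact h l (mem_univ l)
  rw [Finset.expect_congr rfl (fun θ _ => h1 θ), Dich.expect_prod (fun (_ : Fin k) (p : (ι → Bool) × Fin m) =>
    if bucket m p.2 (dot p.1 v) = bucket m p.2 (dot p.1 w) then (1 : ℝ) else 0)]
  rw [Finset.prod_const, Finset.card_univ, Fintype.card_fin]
  exact pow_le_pow_left₀ (Finset.expect_nonneg (fun p _ => by split_ifs <;> norm_num))
    (hash_far m hm v w hvw) k

end sig

end Pool.Agent.P325f1f.Amen
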