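import Mathlib

/-!
# Amenability, residual finiteness and vector solutions

Definitions only.
-/

open Finset
open scoped BigOperators

namespace Pool.Agent.P325f1f.Amen

/-- The Følner condition for the elements `s k` of a group: there are finite nonempty sets `F` such
that for every `k` all but a small proportion of the `g ∈ F` satisfy `s k * g ∈ F`. If the `s k`
generate the group, this is the amenability of the group. -/
def Folner {Γ : Type} [Group Γ] {d : ℕ} (s : Fin d → Γ) : Prop := by
  classical
  exact ∀ η : ℝ, 0 < η → ∃ F : Finset Γ, F.Nonempty ∧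
    ∀ k, (1 - η) * (F.card : ℝ) ≤ ((F.filter (fun g => s k * g ∈ F)).card : ℝ)

/-- Residual finiteness: every nontrivial element is outside some normal subgroup of finite
index. -/
def ResFinite (Γ : Type) [Group Γ] : Prop :=
  ∀ g : Γ, g ≠ 1 → ∃ N : Subgroup Γ, N.Normal ∧ N.FiniteIndex ∧ g ∉ N

/-- Amenability, in the form of Følner: for all finitely many elements `s k` and every `η > 0` there
is a finite nonempty set `F` such that for every `k` at least `(1 - η) * |F|` of the `g ∈ F` satisfy
`s k * g ∈ F`. -/
def Amenable (Γ : Type) [Group Γ] : Prop := ∀ (d : ℕ) (s : Fin d → Γ), Folner s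

/-- The square of the length of a vector. -/
def nsq {D : ℕ} (v : Fin D → ℝ) : ℝ := ∑ i, v i ^ 2

/-- A system of vectors, one for each label: they are orthogonal and the squares of their lengths
sum to one. -/
def IsSys {Ω : Type} [Fintype Ω] {D : ℕ} (a : Ω → Fin D → ℝ) : Prop :=
  (∀ ω ω', ω ≠ ω' → ∑ i, a ω i * a ω' i = 0) ∧ ∑ ω, nsq (a ω) = 1

end Pool.Agent.P325f1f.Amen
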