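import Mathlib
import Pool.Agent.Lib.P325f1f.Amen.Defs

/-!
# Isoperimetry in finite actions of a non-amenable residually finite group

Small sets in suitable finite actions satisfy the same isoperimetric inequality as the finite sets
of the group.
-/

open Finset
open scoped BigOperators

namespace Pool.Agent.P325f1f.Amen

section

variable {Γ : Type} [Group Γ] {d : ℕ} (s : Fin d → Γ)

open Classical in
/-- The elements that are products of at most `n` elements `s k` and their inverses. -/
noncomputable def ball : ℕ → Finset Γ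
  | 0 => {1}
  | n + 1 => ball n ∪ (univ ×ˢ ball n).image (fun p => s p.1 * p.2) ∪
      (univ ×ˢ ball n).image (fun p => (s p.1)⁻¹ * p.2)

theorem ball_succ (n : ℕ) : ball s n ⊆ ball s (n + 1) := by
  classical
  intro g hg
  rw [ball]
  exact Finset.mem_union_left _ (Finset.mem_union_left _ hg)

theorem ball_mono {m n : ℕ} (h : m ≤ n) : ball s m ⊆ ball s n := by
  induction h with
  | refl => exact Finset.Subset.refl _
  | step _ ih => exact ih.trans (ball_succ s _)

theorem one_mem_ball (n : ℕ) : (1 : Γ) ∈ ball s n :=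
  ball_mono s (Nat.zero_le n) (by rw [ball]; exact Finset.mem_singleton_self _)

theorem mul_mem_ball {n : ℕ} {g : Γ} (hg : g ∈ ball s n) (k : Fin d) :
    s k * g ∈ ball s (n + 1) := by
  classical
  rw [ball]
  exact Finset.mem_union_left _ (Finset.mem_union_right _
    (Finset.mem_image.2 ⟨(k, g), Finset.mem_product.2 ⟨mem_univ _, hg⟩, rfl⟩))

theorem inv_mul_mem_ball {n : ℕ} {g : Γ} (hg : g ∈ ball s n) (k : Fin d) :
    (s k)⁻¹ * g ∈ ball s (n + 1) := by
  classical
  rw [ball]
  exact Finset.mem_union_right _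
    (Finset.mem_image.2 ⟨(k, g), Finset.mem_product.2 ⟨mem_univ _, hg⟩, rfl⟩)

/-- A connected component of a finite set of points. -/
theorem exists_component {Ω : Type} [MulAction Γ Ω] [DecidableEq Ω] (H : Finset Ω) (h0 : Ω)
    (hh0 : h0 ∈ H) : ∃ C ⊆ H, h0 ∈ C ∧ (∀ k, ∀ ω ∈ C, s k • ω ∈ H → s k • ω ∈ C) ∧
      (∀ k, ∀ ω ∈ H, s k • ω ∈ C → ω ∈ C) ∧ ∀ c ∈ C, ∃ g ∈ ball s C.card, g • h0 = c := by
  classical
  set P : Finset Ω → Prop := fun C => h0 ∈ C ∧ ∀ c ∈ C, ∃ g ∈ ball s C.card, g • h0 = c with hP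
  set G : Finset (Finset Ω) := H.powerset.filter P with hG
  have hGne : G.Nonempty := by
    refine ⟨{h0}, ?_⟩
    rw [hG, Finset.mem_filter, Finset.mem_powerset, Finset.singleton_subset_iff]
    refine ⟨hh0, Finset.mem_singleton_self _, ?_⟩
    intro c hc
    rw [Finset.mem_singleton] at hc
    exact ⟨1, one_mem_ball s _, by rw [one_smul, hc]⟩
  obtain ⟨C, hC, hmax⟩ := Finset.exists_max_image G Finset.card hGne
  rw [hG, Finset.mem_filter, Finset.mem_powerset] at hC
  obtain ⟨hCH, hC0, hCg⟩ := hC
  have hext : ∀ h' ∈ H, (∃ g ∈ ball s (C.card + 1), g • h0 = h') → h' ∈ C := by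
    intro h' hh' hg
    by_contra hcon
    have h1 : insert h' C ∈ G := by
      rw [hG, Finset.mem_filter, Finset.mem_powerset]
      refine ⟨Finset.insert_subset hh' hCH, Finset.mem_insert_of_mem hC0, ?_⟩
      rw [Finset.card_insert_of_notMem hcon]
      intro c hc
      rcases Finset.mem_insert.1 hc with rfl | hc
      · exact hg
      · obtain ⟨g, hg1, hg2⟩ := hCg c hc
        exact ⟨g, ball_succ s _ hg1, hg2⟩
    have h2 := hmax _ h1
    rw [Finset.card_insert_of_notMem hcon] at h2
    omega
  refine ⟨C, hCH, hC0, ?_, ?_, hCg⟩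
  · intro k ω hω hk
    obtain ⟨g, hg1, hg2⟩ := hCg ω hω
    exact hext _ hk ⟨s k * g, mul_mem_ball s hg1 k, by rw [mul_smul, hg2]⟩
  · intro k ω hω hk
    obtain ⟨g, hg1, hg2⟩ := hCg _ hk
    exact hext _ hω ⟨(s k)⁻¹ * g, inv_mul_mem_ball s hg1 k, by
      rw [mul_smul, hg2, inv_smul_smul]⟩

/-- A finite action in which finitely many given elements act without fixed points. -/
theorem exists_action (hres : ResFinite Γ) (B : Finset Γ) :
    ∃ (Ω : Type) (_ : Fintype Ω) (_ : Nonempty Ω) (_ : MulAction Γ Ω),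
      ∀ g ∈ B, ∀ h : Ω, g • h = h → g = 1 := by
  classical
  induction B using Finset.induction_on with
  | empty =>
    exact ⟨Unit, inferInstance, inferInstance,
      { smul := fun _ x => x, one_smul := fun _ => rfl, mul_smul := fun _ _ _ => rfl },
      fun g hg => absurd hg (Finset.notMem_empty g)⟩
  | insert a B ha ih =>
    obtain ⟨Ω, fΩ, nΩ, mΩ, hΩ⟩ := ih
    by_cases h1 : a = 1
    · refine ⟨Ω, fΩ, nΩ, mΩ, ?_⟩
      intro g hg h hgh
      rcases Finset.mem_insert.1 hg with rfl | hg
      · exact h1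
      · exact hΩ g hg h hgh
    · obtain ⟨N, hN1, hN2, hN3⟩ := hres a h1
      have fQ : Fintype (Γ ⧸ N) := Subgroup.fintypeQuotientOfFiniteIndex
      refine ⟨Ω × (Γ ⧸ N), inferInstance, inferInstance, inferInstance, ?_⟩
      rintro g hg ⟨h, x⟩ hgh
      have e1 : g • h = h := congrArg Prod.fst hgh
      have e2 : g • x = x := congrArg Prod.snd hgh
      rcases Finset.mem_insert.1 hg with rfl | hg
      · exfalso
        apply hN3
        induction x using QuotientGroup.induction_on with
        | H z =>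
          have e3 : ((g * z : Γ) : Γ ⧸ N) = (z : Γ ⧸ N) := e2
          rw [QuotientGroup.eq] at e3
          have e4 : z * ((g * z)⁻¹ * z) * z⁻¹ ∈ N := hN1.conj_mem _ e3 z
          have e5 : z * ((g * z)⁻¹ * z) * z⁻¹ = g⁻¹ := by group
          rw [e5] at e4
          exact (Subgroup.inv_mem_iff N).1 e4
      · exact hΩ g hg h e1

/-- Small sets in a suitable finite action satisfy the isoperimetric inequality of the group. -/
theorem exists_iso (hres : ResFinite Γ) (c : ℝ)
    (hc : ∀ F : Finset Γ, F.Nonempty → ∀ _ : DecidableEq Γ,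
      (∑ k, ∑ g ∈ F, if s k * g ∈ F then (1 : ℝ) else 0) ≤ c * F.card) (N : ℕ) :
    ∃ (Ω : Type) (_ : Fintype Ω) (_ : Nonempty Ω) (_ : MulAction Γ Ω),
      ∀ (_ : DecidableEq Ω) (H : Finset Ω), H.card ≤ N →
        (∑ k, ∑ ω ∈ H, if s k • ω ∈ H then (1 : ℝ) else 0) ≤ c * H.card := by
  classical
  set B : Finset Γ := (univ ×ˢ (ball s N ×ˢ ball s N)).image
    (fun p => p.2.1⁻¹ * (s p.1 * p.2.2)) with hB
  obtain ⟨Ω, fΩ, nΩ, mΩ, hΩ⟩ := exists_action hres B
  refine ⟨Ω, fΩ, nΩ, mΩ, ?_⟩
  intro dΩ H
  induction H using Finset.strongInduction with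
  | H H ih =>
    intro hN
    rcases H.eq_empty_or_nonempty with rfl | ⟨h0, hh0⟩
    · simp
    obtain ⟨C, hCH, hC0, hcl1, hcl2, hCg⟩ := exists_component s H h0 hh0
    by_cases hCeq : C = H
    · -- the connected case: lift to the group
      subst hCeq
      choose! f hf1 hf2 using hCg
      set F : Finset Γ := C.image f with hF
      have hinj : Set.InjOn f (C : Set Ω) := by
        intro x hx y hy hxy
        rw [← hf2 x hx, ← hf2 y hy, hxy]
      have hFc : F.card = C.card := Finset.card_image_of_injOn hinj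
      have hFne : F.Nonempty := ⟨f h0, Finset.mem_image_of_mem f hC0⟩
      have h1 := hc F hFne inferInstance
      rw [hFc] at h1
      refine le_trans ?_ h1
      refine Finset.sum_le_sum (fun k _ => ?_)
      rw [hF, Finset.sum_image hinj]
      refine Finset.sum_le_sum (fun ω hω => ?_)
      by_cases h : s k • ω ∈ C
      · rw [if_pos h, if_pos]
        have h2 : (f (s k • ω))⁻¹ * (s k * f ω) = 1 := by
          refine hΩ _ ?_ h0 ?_
          · rw [hB, Finset.mem_image]
            exact ⟨(k, (f (s k • ω), f ω)), Finset.mem_product.2 ⟨mem_univ _,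
              Finset.mem_product.2 ⟨ball_mono s hN (hf1 _ h), ball_mono s hN (hf1 _ hω)⟩⟩, rfl⟩
          · rw [mul_smul, mul_smul, hf2 ω hω]
            rw [inv_smul_eq_iff, hf2 _ h]
        have h3 : s k * f ω = f (s k • ω) := by
          rw [inv_mul_eq_one] at h2
          exact h2.symm
        rw [h3]
        exact Finset.mem_image_of_mem f h
      · rw [if_neg h]
        split_ifs <;> norm_num
    · have hss : C ⊂ H := Finset.ssubset_iff_subset_ne.2 ⟨hCH, hCeq⟩
      have hss' : H \ C ⊂ H := Finset.sdiff_ssubset hCH ⟨h0, hC0⟩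
      have i1 := ih C hss ((Finset.card_le_card hCH).trans hN)
      have i2 := ih (H \ C) hss' ((Finset.card_le_card hss'.1).trans hN)
      have hcard : (H.card : ℝ) = C.card + (H \ C).card := by
        have := Finset.card_sdiff_add_card_eq_card hCH
        rw [← this]
        push_cast
        ring
      rw [hcard]
      have hsplit : (∑ k, ∑ ω ∈ H, if s k • ω ∈ H then (1 : ℝ) else 0) =
          (∑ k, ∑ ω ∈ C, if s k • ω ∈ C then (1 : ℝ) else 0) +
          ∑ k, ∑ ω ∈ H \ C, if s k • ω ∈ H \ C then (1 : ℝ) else 0 := by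
        rw [← Finset.sum_add_distrib]
        refine Finset.sum_congr rfl (fun k _ => ?_)
        rw [← Finset.sum_sdiff hCH, add_comm]
        congr 1
        · refine Finset.sum_congr rfl (fun ω hω => ?_)
          by_cases h : s k • ω ∈ H
          · rw [if_pos h, if_pos (hcl1 k ω hω h)]
          · rw [if_neg h, if_neg (fun h' => h (hCH h'))]
        · refine Finset.sum_congr rfl (fun ω hω => ?_)
          rw [Finset.mem_sdiff] at hω
          by_cases h : s k • ω ∈ H
          · rw [if_pos h, if_pos (Finset.mem_sdiff.2 ⟨h, fun h' => hω.2 (hcl2 k ω hω.1 h')⟩)]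
          · rw [if_neg h, if_neg (fun h' => h (Finset.mem_sdiff.1 h').1)]
      rw [hsplit]
      linarith

end

end Pool.Agent.P325f1f.Amen
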