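import Mathlib
import Pool.Agent.Lib.P325f1f.Dich.Noise
import Pool.Agent.Lib.P325f1f.Amen.Iso

/-!
# Tickets from a Følner set, and random thresholds
-/

open Finset
open scoped BigOperators

namespace Pool.Agent.P325f1f.Amen

/-! ## Random thresholds -/

section thresholds

theorem card_fin_lt (q c : ℕ) (hc : c ≤ q) :
    (univ.filter (fun j : Fin q => j.val < c)).card = c := by
  rw [Finset.card_filter, Fin.sum_univ_eq_sum_range (fun j => if j < c then 1 else 0) q,
    ← Finset.card_filter]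
  have : (Finset.range q).filter (fun j => j < c) = Finset.range c := by
    ext j
    rw [Finset.mem_filter, Finset.mem_range, Finset.mem_range]
    omega
  rw [this, Finset.card_range]

theorem card_fin_sub (q c c' : ℕ) (hc : c ≤ q) :
    (univ.filter (fun j : Fin q => j.val < c ∧ ¬ j.val < c')).card = c - c' := by
  rw [Finset.card_filter, Fin.sum_univ_eq_sum_range (fun j => if j < c ∧ ¬ j < c' then 1 else 0) q,
    ← Finset.card_filter]
  have : (Finset.range q).filter (fun j => j < c ∧ ¬ j < c') = Finset.Ico c' c := by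
    ext j
    rw [Finset.mem_filter, Finset.mem_range, Finset.mem_Ico]
    omega
  rw [this, Nat.card_Ico]

theorem ceil_le (m : ℕ) (x : ℝ) (hx : x ≤ 1) : ⌈(m : ℝ) * x⌉₊ ≤ m := by
  rw [Nat.ceil_le]
  have : (0 : ℝ) ≤ m := Nat.cast_nonneg m
  nlinarith

theorem thr_ge (m : ℕ) (hm : 0 < m) (x : ℝ) (hx : x ≤ 1) :
    x ≤ 𝔼 t : Fin m, if ((t.val : ℕ) : ℝ) < m * x then (1 : ℝ) else 0 := by
  have hmr : (0 : ℝ) < m := by exact_mod_cast hm
  rw [Fintype.expect_eq_sum_div_card, Finset.sum_boole, Fintype.card_fin, le_div_iff₀ hmr]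
  have h1 : univ.filter (fun t : Fin m => ((t.val : ℕ) : ℝ) < m * x) =
      univ.filter (fun t : Fin m => t.val < ⌈(m : ℝ) * x⌉₊) :=
    Finset.filter_congr (fun t _ => Nat.lt_ceil.symm)
  rw [h1, card_fin_lt m _ (ceil_le m x hx), mul_comm]
  exact Nat.le_ceil _

theorem thr_le (m : ℕ) (hm : 0 < m) (x : ℝ) (hx0 : 0 ≤ x) (hx : x ≤ 1) :
    (𝔼 t : Fin m, if ((t.val : ℕ) : ℝ) < m * x then (1 : ℝ) else 0) ≤ x + 1 / m := by
  have hmr : (0 : ℝ) < m := by exact_mod_cast hm
  rw [Fintype.expect_eq_sum_div_card, Finset.sum_boole, Fintype.card_fin, div_le_iff₀ hmr]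
  have h1 : univ.filter (fun t : Fin m => ((t.val : ℕ) : ℝ) < m * x) =
      univ.filter (fun t : Fin m => t.val < ⌈(m : ℝ) * x⌉₊) :=
    Finset.filter_congr (fun t _ => Nat.lt_ceil.symm)
  rw [h1, card_fin_lt m _ (ceil_le m x hx), add_mul, one_div, inv_mul_cancel₀ hmr.ne',
    mul_comm x]
  exact (Nat.ceil_lt_add_one (by positivity)).le

theorem thr_sub (m : ℕ) (hm : 0 < m) (x y : ℝ) (hx0 : 0 ≤ x) (hx : x ≤ 1) :
    (𝔼 t : Fin m, if ((t.val : ℕ) : ℝ) < m * x ∧ ¬ ((t.val : ℕ) : ℝ) < m * y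
      then (1 : ℝ) else 0) ≤ max (x - y) 0 + 1 / m := by
  have hmr : (0 : ℝ) < m := by exact_mod_cast hm
  rw [Fintype.expect_eq_sum_div_card, Finset.sum_boole, Fintype.card_fin, div_le_iff₀ hmr]
  have h1 : univ.filter (fun t : Fin m => ((t.val : ℕ) : ℝ) < m * x ∧
        ¬ ((t.val : ℕ) : ℝ) < m * y) =
      univ.filter (fun t : Fin m => t.val < ⌈(m : ℝ) * x⌉₊ ∧ ¬ t.val < ⌈(m : ℝ) * y⌉₊) :=
    Finset.filter_congr (fun t _ => by rw [Nat.lt_ceil, Nat.lt_ceil])
  rw [h1, card_fin_sub m _ _ (ceil_le m x hx), add_mul, one_div, inv_mul_cancel₀ hmr.ne']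
  rcases le_total ⌈(m : ℝ) * x⌉₊ ⌈(m : ℝ) * y⌉₊ with h | h
  · rw [Nat.sub_eq_zero_of_le h]
    have := le_max_right (x - y) 0
    have : 0 ≤ max (x - y) 0 * m := mul_nonneg this hmr.le
    push_cast
    linarith
  · rw [Nat.cast_sub h]
    have h2 := (Nat.ceil_lt_add_one (show 0 ≤ (m : ℝ) * x by positivity)).le
    have h3 := Nat.le_ceil ((m : ℝ) * y)
    have h4 : (x - y) * m ≤ max (x - y) 0 * m :=
      mul_le_mul_of_nonneg_right (le_max_left _ _) hmr.le
    linarith

end thresholds

/-! ## Tickets -/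

section tickets

variable {Γ Ω : Type} [Group Γ] [MulAction Γ Ω] [DecidableEq Ω]

/-- The ticket `(z, j)` covers `ω` if `j` is smaller than the number of `f ∈ F` with
`f • ω = z`. -/
def cov (F : Finset Γ) (τ : Ω × Fin F.card) (ω : Ω) : Prop :=
  τ.2.val < (F.filter (fun f => f • ω = τ.1)).card

instance (F : Finset Γ) (τ : Ω × Fin F.card) (ω : Ω) : Decidable (cov F τ ω) := by
  unfold cov
  infer_instance

variable [Fintype Ω]

theorem sum_cnt (F : Finset Γ) (ω : Ω) : ∑ z, (F.filter (fun f => f • ω = z)).card = F.card :=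
  (Finset.card_eq_sum_card_fiberwise (f := fun f => f • ω) (s := F) (t := univ)
    (fun _ _ => Finset.mem_coe.2 (mem_univ _))).symm

theorem exp_cov [Nonempty Ω] (F : Finset Γ) (hF : F.Nonempty) (ω : Ω) :
    (𝔼 τ : Ω × Fin F.card, if cov F τ ω then (1 : ℝ) else 0) = 1 / Fintype.card Ω := by
  have hFc : (0 : ℝ) < F.card := by exact_mod_cast hF.card_pos
  have hΩ : (0 : ℝ) < Fintype.card Ω := by exact_mod_cast Fintype.card_pos
  rw [Fintype.expect_eq_sum_div_card, Fintype.sum_prod_type, Fintype.card_prod, Fintype.card_fin]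
  have h1 : ∀ z, (∑ j : Fin F.card, if cov F (z, j) ω then (1 : ℝ) else 0) =
      ((F.filter (fun f => f • ω = z)).card : ℝ) := by
    intro z
    rw [Finset.sum_boole]
    have h2 := card_fin_lt F.card (F.filter (fun f => f • ω = z)).card
      (Finset.card_le_card (Finset.filter_subset _ _))
    exact_mod_cast h2
  rw [Finset.sum_congr rfl (fun z _ => h1 z), ← Nat.cast_sum, sum_cnt]
  push_cast
  field_simp

theorem exp_cov_sub [Nonempty Ω] [DecidableEq Γ] (F : Finset Γ) (hF : F.Nonempty) (g : Γ) (ω : Ω)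
    (ε : ℝ) (hε : ((F.filter (fun f => f * g⁻¹ ∉ F)).card : ℝ) ≤ ε * F.card) :
    (𝔼 τ : Ω × Fin F.card, if cov F τ ω ∧ ¬ cov F τ (g • ω) then (1 : ℝ) else 0) ≤
      ε / Fintype.card Ω := by
  have hFc : (0 : ℝ) < F.card := by exact_mod_cast hF.card_pos
  have hΩ : (0 : ℝ) < Fintype.card Ω := by exact_mod_cast Fintype.card_pos
  rw [Fintype.expect_eq_sum_div_card, Fintype.sum_prod_type, Fintype.card_prod, Fintype.card_fin]
  have h1 : ∀ z, (∑ j : Fin F.card, if cov F (z, j) ω ∧ ¬ cov F (z, j) (g • ω)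
      then (1 : ℝ) else 0) ≤ ((F.filter (fun f => f • ω = z ∧ f * g⁻¹ ∉ F)).card : ℝ) := by
    intro z
    rw [Finset.sum_boole]
    have h2 := card_fin_sub F.card (F.filter (fun f => f • ω = z)).card
      (F.filter (fun f => f • (g • ω) = z)).card
      (Finset.card_le_card (Finset.filter_subset _ _))
    have h3 : (univ.filter (fun j : Fin F.card => cov F (z, j) ω ∧ ¬ cov F (z, j) (g • ω))).card =
        (F.filter (fun f => f • ω = z)).card - (F.filter (fun f => f • (g • ω) = z)).card := h2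
    rw [h3]
    have h4 : (F.filter (fun f => f • ω = z)).card ≤
        (F.filter (fun f => f • ω = z ∧ f * g⁻¹ ∉ F)).card +
        (F.filter (fun f => f • (g • ω) = z)).card := by
      have h5 : (F.filter (fun f => f • ω = z)).card =
          (F.filter (fun f => f • ω = z ∧ f * g⁻¹ ∉ F)).card +
          (F.filter (fun f => f • ω = z ∧ f * g⁻¹ ∈ F)).card := by
        rw [← Finset.card_union_of_disjoint]
        · congr 1
          ext f
          simp only [Finset.mem_filter, Finset.mem_union]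
          tauto
        · rw [Finset.disjoint_filter]
          intro f _ h h'
          exact h.2 h'.2
      rw [h5]
      refine Nat.add_le_add_left ?_ _
      refine Finset.card_le_card_of_injOn (fun f => f * g⁻¹) ?_ ?_
      · intro f hf
        have hf := Finset.mem_filter.1 hf
        refine Finset.mem_coe.2 (Finset.mem_filter.2 ⟨hf.2.2, ?_⟩)
        rw [smul_smul, inv_mul_cancel_right]
        exact hf.2.1
      · intro x _ y _ hxy
        exact mul_right_cancel hxy
    have h6 : (F.filter (fun f => f • ω = z)).card - (F.filter (fun f => f • (g • ω) = z)).card ≤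
        (F.filter (fun f => f • ω = z ∧ f * g⁻¹ ∉ F)).card := by omega
    exact_mod_cast h6
  have h7 : ∑ z, ((F.filter (fun f => f • ω = z ∧ f * g⁻¹ ∉ F)).card : ℝ) =
      ((F.filter (fun f => f * g⁻¹ ∉ F)).card : ℝ) := by
    rw [← Nat.cast_sum]
    congr 1
    rw [Finset.card_eq_sum_card_fiberwise (f := fun f => f • ω)
      (s := F.filter (fun f => f * g⁻¹ ∉ F)) (t := univ)
      (fun _ _ => Finset.mem_coe.2 (mem_univ _))]
    refine Finset.sum_congr rfl (fun z _ => ?_)
    congr 1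
    ext f
    simp only [Finset.mem_filter]
    tauto
  have h8 := (Finset.sum_le_sum (fun z _ => h1 z)).trans (h7.trans_le hε)
  rw [div_le_iff₀ (by positivity)]
  refine h8.trans (le_of_eq ?_)
  push_cast
  field_simp

/-- Every ticket covers at most `|F|` points. -/
theorem card_cov_le (F : Finset Γ) (τ : Ω × Fin F.card) :
    (univ.filter (fun ω => cov F τ ω)).card ≤ F.card := by
  have h1 : univ.filter (fun ω => cov F τ ω) ⊆ F.image (fun f => f⁻¹ • τ.1) := by
    intro ω hω
    have h2 : τ.2.val < (F.filter (fun f => f • ω = τ.1)).card := (Finset.mem_filter.1 hω).2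
    have h3 : 0 < (F.filter (fun f => f • ω = τ.1)).card := by omega
    obtain ⟨f, hf⟩ := Finset.card_pos.1 h3
    rw [Finset.mem_filter] at hf
    refine Finset.mem_image.2 ⟨f, hf.1, ?_⟩
    rw [← hf.2, inv_smul_smul]
  exact (Finset.card_le_card h1).trans Finset.card_image_le

theorem sum_cov_le [Nonempty Ω] (F : Finset Γ) (hF : F.Nonempty) (ω : Ω) :
    ∑ ω', (𝔼 τ : Ω × Fin F.card, if cov F τ ω ∧ cov F τ ω' then (1 : ℝ) else 0) ≤
      F.card / Fintype.card Ω := by
  rw [← Finset.expect_sum_comm]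
  have h1 : ∀ τ : Ω × Fin F.card, (∑ ω', if cov F τ ω ∧ cov F τ ω' then (1 : ℝ) else 0) ≤
      F.card * (if cov F τ ω then (1 : ℝ) else 0) := by
    intro τ
    by_cases h : cov F τ ω
    · simp only [h, true_and, if_true, mul_one]
      rw [Finset.sum_boole]
      exact_mod_cast card_cov_le F τ
    · simp [h]
  refine (Finset.expect_le_expect (fun τ _ => h1 τ)).trans (le_of_eq ?_)
  rw [← Finset.mul_expect, exp_cov F hF]
  ring

end tickets

/-- A Følner set for the inverses, from the other side. -/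
theorem exists_right_folner {Γ : Type} [Group Γ] {d : ℕ} (s : Fin d → Γ) (hs : Folner s) (ε : ℝ)
    (hε : 0 < ε) : ∃ F : Finset Γ, F.Nonempty ∧ ∀ (_ : DecidableEq Γ), ∀ k,
      ((F.filter (fun f => f * s k ∉ F)).card : ℝ) ≤ ε * F.card ∧
      ((F.filter (fun f => f * (s k)⁻¹ ∉ F)).card : ℝ) ≤ ε * F.card := by
  classical
  obtain ⟨F0, hF0, h⟩ := hs ε hε
  set F : Finset Γ := F0.image (fun g => g⁻¹) with hF
  have hcard : F.card = F0.card := Finset.card_image_of_injective _ inv_injective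
  have hmem : ∀ f, f ∈ F ↔ f⁻¹ ∈ F0 := by
    intro f
    rw [hF, Finset.mem_image]
    constructor
    · rintro ⟨g, hg, rfl⟩
      rwa [inv_inv]
    · intro hf
      exact ⟨f⁻¹, hf, inv_inv f⟩
  refine ⟨F, hF0.image _, ?_⟩
  intro dΓ k
  have h1 : (1 - ε) * (F0.card : ℝ) ≤ ((F0.filter (fun g => s k * g ∈ F0)).card : ℝ) := by
    refine (h k).trans (le_of_eq ?_)
    congr!
  -- the number of `f ∈ F` with `f * (s k)⁻¹ ∈ F`
  have h2 : (F.filter (fun f => f * (s k)⁻¹ ∈ F)).card =
      (F0.filter (fun g => s k * g ∈ F0)).card := by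
    refine Finset.card_bij (fun f _ => f⁻¹) ?_ ?_ ?_
    · intro f hf
      rw [Finset.mem_filter] at hf ⊢
      refine ⟨(hmem f).1 hf.1, ?_⟩
      have := (hmem _).1 hf.2
      rwa [mul_inv_rev, inv_inv] at this
    · intro x _ y _ hxy
      exact inv_injective hxy
    · intro g hg
      rw [Finset.mem_filter] at hg
      refine ⟨g⁻¹, ?_, inv_inv g⟩
      rw [Finset.mem_filter, hmem, hmem, inv_inv, mul_inv_rev, inv_inv, inv_inv]
      exact hg
  have h3 : (F.filter (fun f => f * s k ∈ F)).card =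
      (F.filter (fun f => f * (s k)⁻¹ ∈ F)).card := by
    refine Finset.card_bij (fun f _ => f * s k) ?_ ?_ ?_
    · intro f hf
      rw [Finset.mem_filter] at hf ⊢
      refine ⟨hf.2, ?_⟩
      rw [mul_inv_cancel_right]
      exact hf.1
    · intro x _ y _ hxy
      exact mul_right_cancel hxy
    · intro g hg
      rw [Finset.mem_filter] at hg
      refine ⟨g * (s k)⁻¹, ?_, inv_mul_cancel_right g (s k)⟩
      rw [Finset.mem_filter, inv_mul_cancel_right]
      exact ⟨hg.2, hg.1⟩
  have h4 : ∀ P : Γ → Prop, ∀ _ : DecidablePred P,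
      ((F.filter (fun f => ¬ P f)).card : ℝ) = F.card - (F.filter P).card := by
    intro P _
    have := Finset.card_filter_add_card_filter_not (s := F) P
    have h5 : ((F.filter P).card : ℝ) + ((F.filter (fun f => ¬ P f)).card : ℝ) = F.card := by
      exact_mod_cast this
    linarith
  constructor
  · have h5 := h4 (fun f => f * s k ∈ F) inferInstance
    have h6 : ((F.filter (fun f => f * s k ∉ F)).card : ℝ) =
      F.card - (F.filter (fun f => f * s k ∈ F)).card := h5
    rw [h6, h3, h2, hcard]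
    linarith
  · have h5 := h4 (fun f => f * (s k)⁻¹ ∈ F) inferInstance
    have h6 : ((F.filter (fun f => f * (s k)⁻¹ ∉ F)).card : ℝ) =
      F.card - (F.filter (fun f => f * (s k)⁻¹ ∈ F)).card := h5
    rw [h6, h2, hcard]
    linarith

end Pool.Agent.P325f1f.Amen
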