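import Mathlib
import Pool.Agent.Lib.P325f1f.Amen.Bucket
import Pool.Agent.Lib.P325f1f.Amen.Tickets

/-!
# The selection of a label in a single round
-/

open Finset
open scoped BigOperators

namespace Pool.Agent.P325f1f.Amen

/-! ## Vectors -/

section vectors

variable {D : ℕ}

/-- The normalised vector. -/
noncomputable def nrm (v : Fin D → ℝ) : Fin D → ℝ := fun i => v i / √(nsq v)

theorem nsq_nonneg (v : Fin D → ℝ) : 0 ≤ nsq v := Finset.sum_nonneg (fun _ _ => sq_nonneg _)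

theorem nsq_nrm {v : Fin D → ℝ} (hv : 0 < nsq v) : nsq (nrm v) = 1 := by
  have h1 : √(nsq v) ^ 2 = nsq v := Real.sq_sqrt hv.le
  have h2 : nsq (nrm v) = (∑ i, v i ^ 2) / nsq v := by
    rw [nsq, Finset.sum_div]
    refine Finset.sum_congr rfl (fun i _ => ?_)
    rw [nrm, div_pow, h1]
  rw [h2]
  exact div_self hv.ne'

theorem nrm_zero {v : Fin D → ℝ} (hv : nsq v = 0) : nrm v = fun _ => 0 := by
  funext i
  rw [nrm, hv, Real.sqrt_zero, div_zero]

theorem nsq_nrm_le (v : Fin D → ℝ) : nsq (nrm v) ≤ 1 := by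
  rcases (nsq_nonneg v).eq_or_lt with h | h
  · rw [nrm_zero h.symm]
    simp [nsq]
  · exact (nsq_nrm h).le

theorem nsq_sub (v w : Fin D → ℝ) :
    ∑ i, (v i - w i) ^ 2 = nsq v + nsq w - 2 * ∑ i, v i * w i := by
  rw [nsq, nsq, Finset.mul_sum, ← Finset.sum_add_distrib, ← Finset.sum_sub_distrib]
  exact Finset.sum_congr rfl (fun i _ => by ring)

theorem inner_le (v w : Fin D → ℝ) : ∑ i, v i * w i ≤ √(nsq v) * √(nsq w) := by
  have h1 : (∑ i, v i * w i) ^ 2 ≤ (∑ i, v i ^ 2) * ∑ i, w i ^ 2 :=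
    Finset.sum_mul_sq_le_sq_mul_sq _ _ _
  rw [← Real.sqrt_mul (nsq_nonneg v)]
  exact Real.le_sqrt_of_sq_le h1

theorem sqrt_sub_sq (v w : Fin D → ℝ) :
    (√(nsq v) - √(nsq w)) ^ 2 ≤ ∑ i, (v i - w i) ^ 2 := by
  have h1 := Real.sq_sqrt (nsq_nonneg v)
  have h2 := Real.sq_sqrt (nsq_nonneg w)
  have h3 := inner_le v w
  rw [nsq_sub]
  nlinarith

theorem max_sub_le (v w : Fin D → ℝ) (α : ℝ) (hα : 0 < α) :
    max (nsq v - nsq w) 0 ≤ 2 * α * (nsq v + nsq w) + (∑ i, (v i - w i) ^ 2) / (4 * α) := by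
  have h1 := Real.sq_sqrt (nsq_nonneg v)
  have h2 := Real.sq_sqrt (nsq_nonneg w)
  have h3 := sqrt_sub_sq v w
  set p := √(nsq v) with hp
  set q := √(nsq w) with hq
  have h0 : 0 ≤ 2 * α * (nsq v + nsq w) :=
    mul_nonneg (by positivity) (add_nonneg (nsq_nonneg v) (nsq_nonneg w))
  have h4 : 0 ≤ (∑ i, (v i - w i) ^ 2) / (4 * α) :=
    div_nonneg (Finset.sum_nonneg (fun i _ => sq_nonneg _)) (by positivity)
  refine max_le ?_ (by linarith)
  have h5 : (p - q) ^ 2 / (4 * α) ≤ (∑ i, (v i - w i) ^ 2) / (4 * α) :=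
    div_le_div_of_nonneg_right h3 (by positivity)
  have h6 : nsq v - nsq w ≤ α * (p + q) ^ 2 + (p - q) ^ 2 / (4 * α) := by
    have h7 : α * (p + q) ^ 2 + (p - q) ^ 2 / (4 * α) - (p ^ 2 - q ^ 2) =
        (2 * α * (p + q) - (p - q)) ^ 2 / (4 * α) := by
      field_simp
      ring
    have h8 : 0 ≤ (2 * α * (p + q) - (p - q)) ^ 2 / (4 * α) := by positivity
    rw [← h1, ← h2]
    linarith
  have h9 : α * (p + q) ^ 2 ≤ 2 * α * (nsq v + nsq w) := by
    rw [← h1, ← h2]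
    nlinarith [mul_nonneg hα.le (sq_nonneg (p - q))]
  linarith

theorem nrm_diff (v w : Fin D → ℝ) :
    nsq v * ∑ i, (nrm v i - nrm w i) ^ 2 ≤ 4 * ∑ i, (v i - w i) ^ 2 := by
  have hS : 0 ≤ ∑ i, (v i - w i) ^ 2 := Finset.sum_nonneg (fun i _ => sq_nonneg _)
  rcases (nsq_nonneg v).eq_or_lt with h | hv
  · rw [← h, zero_mul]
    linarith
  have h1 := Real.sq_sqrt (nsq_nonneg v)
  have h2 := Real.sq_sqrt (nsq_nonneg w)
  have h3 := sqrt_sub_sq v w
  set p := √(nsq v) with hp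
  set q := √(nsq w) with hq
  have hp0 : 0 < p := Real.sqrt_pos.2 hv
  rcases (nsq_nonneg w).eq_or_lt with hw | hw
  · -- `w = 0`
    have hw0 : ∀ i, w i = 0 := by
      intro i
      have := (Finset.sum_eq_zero_iff_of_nonneg (fun i _ => sq_nonneg (w i))).1 hw.symm i
        (mem_univ i)
      exact pow_eq_zero_iff (two_ne_zero) |>.1 this
    have h4 : ∑ i, (nrm v i - nrm w i) ^ 2 = 1 := by
      rw [← nsq_nrm hv, nsq]
      refine Finset.sum_congr rfl (fun i _ => ?_)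
      rw [nrm_zero hw.symm, sub_zero]
    have h5 : ∑ i, (v i - w i) ^ 2 = nsq v := by
      rw [nsq]
      exact Finset.sum_congr rfl (fun i _ => by rw [hw0, sub_zero])
    rw [h4, h5]
    linarith
  · have hq0 : 0 < q := Real.sqrt_pos.2 hw
    have h4 : nsq v * ∑ i, (nrm v i - nrm w i) ^ 2 ≤
        ∑ i, (2 * (v i - w i) ^ 2 + 2 * (q - p) ^ 2 * nrm w i ^ 2) := by
      rw [Finset.mul_sum]
      refine Finset.sum_le_sum (fun i _ => ?_)
      have h5 : nsq v * (nrm v i - nrm w i) ^ 2 = ((v i - w i) + (q - p) * nrm w i) ^ 2 := by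
        have h6 : v i = p * nrm v i := by
          rw [nrm, ← hp]
          field_simp
        have h7 : w i = q * nrm w i := by
          rw [nrm, ← hq]
          field_simp
        have h8 : (v i - w i) + (q - p) * nrm w i = p * (nrm v i - nrm w i) := by
          rw [h6, h7]
          ring
        rw [h8, mul_pow, h1]
      rw [h5]
      nlinarith [sq_nonneg ((v i - w i) - (q - p) * nrm w i)]
    refine h4.trans ?_
    rw [Finset.sum_add_distrib, ← Finset.mul_sum, ← Finset.mul_sum]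
    have h9 : ∑ i, nrm w i ^ 2 = 1 := nsq_nrm hw
    rw [h9]
    nlinarith [h3]

theorem nrm_dist_le (v w : Fin D → ℝ) : ∑ i, (nrm v i - nrm w i) ^ 2 ≤ 4 := by
  have h1 := nsq_nrm_le v
  have h2 := nsq_nrm_le w
  have h3 : ∑ i, (nrm v i - nrm w i) ^ 2 ≤ 2 * nsq (nrm v) + 2 * nsq (nrm w) := by
    rw [nsq, nsq, Finset.mul_sum, Finset.mul_sum, ← Finset.sum_add_distrib]
    exact Finset.sum_le_sum (fun i _ => by nlinarith [sq_nonneg (nrm v i + nrm w i)])
  linarith

/-- Orthogonal vectors become orthonormal. -/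
theorem nrm_orth {v w : Fin D → ℝ} (hv : 0 < nsq v) (hw : 0 < nsq w)
    (h : ∑ i, v i * w i = 0) : ∑ i, (nrm v i - nrm w i) ^ 2 = 2 := by
  rw [nsq_sub, nsq_nrm hv, nsq_nrm hw]
  have h1 : ∑ i, nrm v i * nrm w i = (∑ i, v i * w i) / (√(nsq v) * √(nsq w)) := by
    rw [Finset.sum_div]
    refine Finset.sum_congr rfl (fun i _ => ?_)
    rw [nrm, nrm, div_mul_div_comm]
  rw [h1, h, zero_div]
  norm_num

end vectors

/-! ## Picking a class -/

section pick

variable {D : ℕ} {V : Type} [Nonempty V] (vec : V → Fin D → ℝ) (k m : ℕ)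

open Classical in
/-- A name for a signature. -/
noncomputable def pickSig (θ : Fin k → (Fin D → Bool) × Fin m) (σ : Fin k → ℤ) : V :=
  if h : ∃ v', sig k m θ (vec v') = σ then h.choose else Classical.arbitrary V

/-- A name for the class of a vector. -/
noncomputable def pick (θ : Fin k → (Fin D → Bool) × Fin m) (v : Fin D → ℝ) : V :=
  pickSig vec k m θ (sig k m θ v)

theorem pick_congr (θ : Fin k → (Fin D → Bool) × Fin m) {v w : Fin D → ℝ}
    (h : sig k m θ v = sig k m θ w) : pick vec k m θ v = pick vec k m θ w :=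
  congrArg (pickSig vec k m θ) h

theorem sig_pick (θ : Fin k → (Fin D → Bool) × Fin m) {v : Fin D → ℝ} (hv : ∃ v', vec v' = v) :
    sig k m θ (vec (pick vec k m θ v)) = sig k m θ v := by
  have h : ∃ v', sig k m θ (vec v') = sig k m θ v := by
    obtain ⟨v', rfl⟩ := hv
    exact ⟨v', rfl⟩
  rw [pick, pickSig, dif_pos h]
  exact h.choose_spec

theorem pick_inj (θ : Fin k → (Fin D → Bool) × Fin m) {v w : Fin D → ℝ}
    (hv : ∃ v', vec v' = v) (hw : ∃ v', vec v' = w)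
    (h : pick vec k m θ v = pick vec k m θ w) : sig k m θ v = sig k m θ w := by
  rw [← sig_pick vec k m θ hv, h, sig_pick vec k m θ hw]

variable [Fintype V] [DecidableEq V]

omit [Nonempty V] in
theorem expect_eq_const (c : V) : (𝔼 y : V, if c = y then (1 : ℝ) else 0) =
    1 / Fintype.card V := by
  rw [Fintype.expect_eq_sum_div_card, Finset.sum_ite_eq, if_pos (mem_univ c)]

theorem hash_one (hm : 0 < m) (v : Fin D → ℝ) :
    (𝔼 q : (Fin k → (Fin D → Bool) × Fin m) × V,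
      if pick vec k m q.1 v = q.2 then (1 : ℝ) else 0) = 1 / Fintype.card V := by
  have hne : Nonempty (Fin m) := ⟨⟨0, hm⟩⟩
  rw [Dich.expect_pair]
  refine (Finset.expect_congr rfl (fun θ _ => ?_)).trans (Fintype.expect_const _)
  exact expect_eq_const (pick vec k m θ v)

theorem hash_two (hm : 0 < m) {v w : Fin D → ℝ} (hv : ∃ v', vec v' = v) (hw : ∃ v', vec v' = w)
    (hvw : ∑ i, (v i - w i) ^ 2 = 2) :
    (𝔼 q : (Fin k → (Fin D → Bool) × Fin m) × V,
      if pick vec k m q.1 v = q.2 ∧ pick vec k m q.1 w = q.2 then (1 : ℝ) else 0) ≤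
      (9 / 10) ^ k * (1 / Fintype.card V) := by
  have hV : (0 : ℝ) < Fintype.card V := by exact_mod_cast Fintype.card_pos
  rw [Dich.expect_pair]
  have h1 : ∀ θ : Fin k → (Fin D → Bool) × Fin m,
      (𝔼 y : V, if pick vec k m θ v = y ∧ pick vec k m θ w = y then (1 : ℝ) else 0) ≤
      (if sig k m θ v = sig k m θ w then (1 : ℝ) else 0) * (1 / Fintype.card V) := by
    intro θ
    by_cases h : sig k m θ v = sig k m θ w
    · rw [if_pos h, one_mul, ← expect_eq_const (pick vec k m θ v)]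
      refine Finset.expect_le_expect (fun y _ => ?_)
      by_cases h' : pick vec k m θ v = y
      · rw [if_pos h']
        split_ifs <;> norm_num
      · rw [if_neg (fun h'' => h' h''.1), if_neg h']
    · rw [if_neg h, zero_mul]
      refine le_of_eq ((Finset.expect_congr rfl (fun y _ => ?_)).trans (Finset.expect_const_zero _))
      rw [if_neg]
      rintro ⟨e1, e2⟩
      exact h (pick_inj vec k m θ hv hw (e1.trans e2.symm))
  refine (Finset.expect_le_expect (fun θ _ => h1 θ)).trans ?_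
  rw [← Finset.expect_mul]
  exact mul_le_mul_of_nonneg_right (sig_far k m hm v w hvw) (by positivity)

theorem hash_sub (hm : 0 < m) (v w : Fin D → ℝ) (α : ℝ) (hα : 0 < α) :
    (𝔼 q : (Fin k → (Fin D → Bool) × Fin m) × V,
      if pick vec k m q.1 v = q.2 ∧ ¬ pick vec k m q.1 w = q.2 then (1 : ℝ) else 0) ≤
      (k * (α + (∑ i, (v i - w i) ^ 2) / (4 * α) + 1 / m)) * (1 / Fintype.card V) := by
  have hV : (0 : ℝ) < Fintype.card V := by exact_mod_cast Fintype.card_pos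
  rw [Dich.expect_pair]
  have h1 : ∀ θ : Fin k → (Fin D → Bool) × Fin m,
      (𝔼 y : V, if pick vec k m θ v = y ∧ ¬ pick vec k m θ w = y then (1 : ℝ) else 0) ≤
      (if sig k m θ v ≠ sig k m θ w then (1 : ℝ) else 0) * (1 / Fintype.card V) := by
    intro θ
    by_cases h : sig k m θ v = sig k m θ w
    · rw [if_neg (fun h' => h' h), zero_mul]
      refine le_of_eq ((Finset.expect_congr rfl (fun y _ => ?_)).trans (Finset.expect_const_zero _))
      rw [if_neg]
      rintro ⟨e1, e2⟩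
      exact e2 ((pick_congr vec k m θ h).symm.trans e1)
    · rw [if_pos h, one_mul, ← expect_eq_const (pick vec k m θ v)]
      refine Finset.expect_le_expect (fun y _ => ?_)
      by_cases h' : pick vec k m θ v = y
      · rw [if_pos h']
        split_ifs <;> norm_num
      · rw [if_neg (fun h'' => h' h''.1), if_neg h']
  refine (Finset.expect_le_expect (fun θ _ => h1 θ)).trans ?_
  rw [← Finset.expect_mul]
  exact mul_le_mul_of_nonneg_right (sig_close k m hm v w α hα) (by positivity)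

end pick

/-! ## The selection of labels -/

theorem expect_three {A B C : Type} [Fintype A] [Fintype B] [Fintype C] (f : A → ℝ) (g : B → ℝ)
    (h : C → ℝ) : (𝔼 p : A × B × C, f p.1 * g p.2.1 * h p.2.2) =
      (𝔼 a, f a) * (𝔼 b, g b) * 𝔼 c, h c := by
  rw [Dich.expect_pair]
  have h1 : ∀ a, (𝔼 q : B × C, f (a, q).1 * g (a, q).2.1 * h (a, q).2.2) =
      f a * ((𝔼 b, g b) * 𝔼 c, h c) := by
    intro a
    rw [Dich.expect_pair]
    have h2 : ∀ b, (𝔼 c, f (a, (b, c)).1 * g (a, (b, c)).2.1 * h (a, (b, c)).2.2) =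
        f a * (g b * 𝔼 c, h c) := by
      intro b
      rw [← mul_assoc, Finset.mul_expect]
    rw [Finset.expect_congr rfl (fun b _ => h2 b), ← Finset.mul_expect, ← Finset.expect_mul]
  rw [Finset.expect_congr rfl (fun a _ => h1 a), ← Finset.expect_mul, mul_assoc]

section sel

variable {Γ Ω : Type} [Group Γ] [MulAction Γ Ω] [DecidableEq Ω] [Fintype Ω] [Nonempty Ω]
  {D : ℕ} {V : Type} [Nonempty V] [Fintype V] [DecidableEq V]
  (F : Finset Γ) (vec : V → Fin D → ℝ) (k m : ℕ)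

/-- The random object of a round: a ticket, a threshold, a hash function and a class. -/
abbrev Seed (Ω V : Type) (D f k m : ℕ) : Type :=
  (Ω × Fin f) × Fin m × ((Fin k → (Fin D → Bool) × Fin m) × V)

/-- The label `ω` with vector `v` is selected. -/
def sel (v : Fin D → ℝ) (ω : Ω) (ρ : Seed Ω V D F.card k m) : Prop :=
  cov F ρ.1 ω ∧ ((ρ.2.1.val : ℕ) : ℝ) < m * nsq v ∧ pick vec k m ρ.2.2.1 (nrm v) = ρ.2.2.2

open Classical in
theorem sel_one (hF : F.Nonempty) (hm : 0 < m) (v : Fin D → ℝ) (hv : nsq v ≤ 1) (ω : Ω) :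
    nsq v / (Fintype.card Ω * Fintype.card V) ≤
      𝔼 ρ, if sel F vec k m v ω ρ then (1 : ℝ) else 0 := by
  have h1 : ∀ ρ : Seed Ω V D F.card k m, (if sel F vec k m v ω ρ then (1 : ℝ) else 0) =
      (if cov F ρ.1 ω then (1 : ℝ) else 0) *
      (if ((ρ.2.1.val : ℕ) : ℝ) < m * nsq v then (1 : ℝ) else 0) *
      (if pick vec k m ρ.2.2.1 (nrm v) = ρ.2.2.2 then (1 : ℝ) else 0) := by
    intro ρ
    by_cases a : cov F ρ.1 ω
    · by_cases b : ((ρ.2.1.val : ℕ) : ℝ) < m * nsq v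
      · by_cases c : pick vec k m ρ.2.2.1 (nrm v) = ρ.2.2.2
        · rw [if_pos ⟨a, b, c⟩, if_pos a, if_pos b, if_pos c]
          norm_num
        · rw [if_neg (fun h : sel F vec k m v ω ρ => c h.2.2), if_neg c, mul_zero]
      · rw [if_neg (fun h : sel F vec k m v ω ρ => b h.2.1), if_neg b, mul_zero, zero_mul]
    · rw [if_neg (fun h : sel F vec k m v ω ρ => a h.1), if_neg a, zero_mul, zero_mul]
  rw [Finset.expect_congr rfl (fun ρ _ => h1 ρ),
    expect_three (fun τ : Ω × Fin F.card => if cov F τ ω then (1 : ℝ) else 0)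
      (fun t : Fin m => if ((t.val : ℕ) : ℝ) < m * nsq v then (1 : ℝ) else 0)
      (fun q : (Fin k → (Fin D → Bool) × Fin m) × V =>
        if pick vec k m q.1 (nrm v) = q.2 then (1 : ℝ) else 0),
    exp_cov F hF, hash_one vec k m hm]
  have h2 := thr_ge m hm (nsq v) hv
  have hΩ : (0 : ℝ) < Fintype.card Ω := by exact_mod_cast Fintype.card_pos
  have hV : (0 : ℝ) < Fintype.card V := by exact_mod_cast Fintype.card_pos
  have h3 : nsq v / (Fintype.card Ω * Fintype.card V : ℝ) =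
      1 / (Fintype.card Ω : ℝ) * nsq v * (1 / (Fintype.card V : ℝ)) := by
    field_simp
  rw [h3]
  gcongr

omit [Nonempty Ω] in
open Classical in
theorem sel_two (hF : F.Nonempty) (hm : 0 < m) (v w : Fin D → ℝ) (hv : nsq v ≤ 1)
    (hvr : ∃ v', vec v' = nrm v) (hwr : ∃ v', vec v' = nrm w)
    (horth : ∑ i, v i * w i = 0) (ω ω' : Ω) :
    (𝔼 ρ, if sel F vec k m v ω ρ ∧ sel F vec k m w ω' ρ then (1 : ℝ) else 0) ≤
      (𝔼 τ : Ω × Fin F.card, if cov F τ ω ∧ cov F τ ω' then (1 : ℝ) else 0) *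
        (nsq v + 1 / m) * ((9 / 10) ^ k * (1 / Fintype.card V)) := by
  have hne : Nonempty (Fin m) := ⟨⟨0, hm⟩⟩
  have hmr : (0 : ℝ) < m := by exact_mod_cast hm
  have hneF : Nonempty (Fin F.card) := ⟨⟨0, hF.card_pos⟩⟩
  have hc0 : 0 ≤ 𝔼 τ : Ω × Fin F.card, if cov F τ ω ∧ cov F τ ω' then (1 : ℝ) else 0 :=
    Finset.expect_nonneg (fun τ _ => by split_ifs <;> norm_num)
  have hnn := nsq_nonneg v
  have hRHS : 0 ≤ (𝔼 τ : Ω × Fin F.card, if cov F τ ω ∧ cov F τ ω' then (1 : ℝ) else 0) *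
        (nsq v + 1 / m) * ((9 / 10) ^ k * (1 / Fintype.card V)) := by positivity
  by_cases hz : 0 < nsq v ∧ 0 < nsq w
  · have h1 : ∀ ρ : Seed Ω V D F.card k m,
        (if sel F vec k m v ω ρ ∧ sel F vec k m w ω' ρ then (1 : ℝ) else 0) ≤
        (if cov F ρ.1 ω ∧ cov F ρ.1 ω' then (1 : ℝ) else 0) *
        (if ((ρ.2.1.val : ℕ) : ℝ) < m * nsq v then (1 : ℝ) else 0) *
        (if pick vec k m ρ.2.2.1 (nrm v) = ρ.2.2.2 ∧ pick vec k m ρ.2.2.1 (nrm w) = ρ.2.2.2
          then (1 : ℝ) else 0) := by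
      intro ρ
      by_cases h : sel F vec k m v ω ρ ∧ sel F vec k m w ω' ρ
      · rw [if_pos h, if_pos ⟨h.1.1, h.2.1⟩, if_pos h.1.2.1, if_pos ⟨h.1.2.2, h.2.2.2⟩]
        norm_num
      · rw [if_neg h]
        refine mul_nonneg (mul_nonneg ?_ ?_) ?_ <;> split_ifs <;> norm_num
    refine (Finset.expect_le_expect (fun ρ _ => h1 ρ)).trans ?_
    rw [expect_three (fun τ : Ω × Fin F.card => if cov F τ ω ∧ cov F τ ω' then (1 : ℝ) else 0)
      (fun t : Fin m => if ((t.val : ℕ) : ℝ) < m * nsq v then (1 : ℝ) else 0)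
      (fun q : (Fin k → (Fin D → Bool) × Fin m) × V =>
        if pick vec k m q.1 (nrm v) = q.2 ∧ pick vec k m q.1 (nrm w) = q.2
          then (1 : ℝ) else 0)]
    have h2 := thr_le m hm (nsq v) hnn hv
    have h3 := hash_two vec k m hm hvr hwr (nrm_orth hz.1 hz.2 horth)
    have h4 : 0 ≤ 𝔼 q : (Fin k → (Fin D → Bool) × Fin m) × V,
        if pick vec k m q.1 (nrm v) = q.2 ∧ pick vec k m q.1 (nrm w) = q.2
          then (1 : ℝ) else 0 := Finset.expect_nonneg (fun τ _ => by split_ifs <;> norm_num)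
    exact mul_le_mul (mul_le_mul_of_nonneg_left h2 hc0) h3 h4 (by positivity)
  · refine le_trans (le_of_eq ?_) hRHS
    refine (Finset.expect_congr rfl (fun ρ _ => ?_)).trans (Finset.expect_const_zero _)
    rw [if_neg]
    rintro ⟨⟨_, e1, _⟩, ⟨_, e2, _⟩⟩
    apply hz
    have e3 : (0 : ℝ) ≤ ((ρ.2.1.val : ℕ) : ℝ) := Nat.cast_nonneg _
    constructor
    · by_contra hcon
      have : nsq v = 0 := le_antisymm (not_lt.1 hcon) hnn
      rw [this, mul_zero] at e1
      linarith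
    · by_contra hcon
      have : nsq w = 0 := le_antisymm (not_lt.1 hcon) (nsq_nonneg w)
      rw [this, mul_zero] at e2
      linarith

open Classical in
theorem sel_sub (hF : F.Nonempty) (hm : 0 < m) (v w : Fin D → ℝ) (hv : nsq v ≤ 1)
    (g : Γ) (ω : Ω) (ε : ℝ) (hε0 : 0 ≤ ε)
    (hε : ((F.filter (fun f => f * g⁻¹ ∉ F)).card : ℝ) ≤ ε * F.card) (α : ℝ) (hα : 0 < α) :
    (𝔼 ρ, if sel F vec k m v ω ρ ∧ ¬ sel F vec k m w (g • ω) ρ then (1 : ℝ) else 0) ≤
      (1 / (Fintype.card Ω * Fintype.card V)) *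
        (ε * (nsq v + 1 / m) + (max (nsq v - nsq w) 0 + 1 / m) +
          (nsq v + 1 / m) * (k * (α + (∑ i, (nrm v i - nrm w i) ^ 2) / (4 * α) + 1 / m))) := by
  have hne : Nonempty (Fin m) := ⟨⟨0, hm⟩⟩
  have hmr : (0 : ℝ) < m := by exact_mod_cast hm
  have hneF : Nonempty (Fin F.card) := ⟨⟨0, hF.card_pos⟩⟩
  have hΩ : (0 : ℝ) < Fintype.card Ω := by exact_mod_cast Fintype.card_pos
  have hV : (0 : ℝ) < Fintype.card V := by exact_mod_cast Fintype.card_pos
  have hnn := nsq_nonneg v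
  set S : ℝ := ∑ i, (nrm v i - nrm w i) ^ 2 with hS
  have hS0 : 0 ≤ S := Finset.sum_nonneg (fun i _ => sq_nonneg _)
  -- the three factors
  set c1 : Ω × Fin F.card → ℝ := fun τ => if cov F τ ω then 1 else 0 with hc1
  set c2 : Ω × Fin F.card → ℝ := fun τ => if cov F τ ω ∧ ¬ cov F τ (g • ω) then 1 else 0 with hc2
  set t1 : Fin m → ℝ := fun t => if ((t.val : ℕ) : ℝ) < m * nsq v then 1 else 0 with ht1
  set t2 : Fin m → ℝ := fun t => if ((t.val : ℕ) : ℝ) < m * nsq v ∧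
    ¬ ((t.val : ℕ) : ℝ) < m * nsq w then 1 else 0 with ht2
  set q1 : (Fin k → (Fin D → Bool) × Fin m) × V → ℝ :=
    fun q => if pick vec k m q.1 (nrm v) = q.2 then 1 else 0 with hq1
  set q2 : (Fin k → (Fin D → Bool) × Fin m) × V → ℝ :=
    fun q => if pick vec k m q.1 (nrm v) = q.2 ∧ ¬ pick vec k m q.1 (nrm w) = q.2
      then 1 else 0 with hq2
  have h1 : ∀ ρ : Seed Ω V D F.card k m,
      (if sel F vec k m v ω ρ ∧ ¬ sel F vec k m w (g • ω) ρ then (1 : ℝ) else 0) ≤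
      c2 ρ.1 * t1 ρ.2.1 * q1 ρ.2.2 + c1 ρ.1 * t2 ρ.2.1 * q1 ρ.2.2 +
        c1 ρ.1 * t1 ρ.2.1 * q2 ρ.2.2 := by
    intro ρ
    have n1 : 0 ≤ c2 ρ.1 * t1 ρ.2.1 * q1 ρ.2.2 := by
      simp only [hc2, ht1, hq1]
      refine mul_nonneg (mul_nonneg ?_ ?_) ?_ <;> split_ifs <;> norm_num
    have n2 : 0 ≤ c1 ρ.1 * t2 ρ.2.1 * q1 ρ.2.2 := by
      simp only [hc1, ht2, hq1]
      refine mul_nonneg (mul_nonneg ?_ ?_) ?_ <;> split_ifs <;> norm_num
    have n3 : 0 ≤ c1 ρ.1 * t1 ρ.2.1 * q2 ρ.2.2 := by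
      simp only [hc1, ht1, hq2]
      refine mul_nonneg (mul_nonneg ?_ ?_) ?_ <;> split_ifs <;> norm_num
    by_cases h : sel F vec k m v ω ρ ∧ ¬ sel F vec k m w (g • ω) ρ
    · rw [if_pos h]
      obtain ⟨⟨e1, e2, e3⟩, e4⟩ := h
      by_cases f1 : cov F ρ.1 (g • ω)
      · by_cases f2 : ((ρ.2.1.val : ℕ) : ℝ) < m * nsq w
        · by_cases f3 : pick vec k m ρ.2.2.1 (nrm w) = ρ.2.2.2
          · exact absurd ⟨f1, f2, f3⟩ e4
          · have : c1 ρ.1 * t1 ρ.2.1 * q2 ρ.2.2 = 1 := by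
              simp only [hc1, ht1, hq2]
              rw [if_pos e1, if_pos e2, if_pos ⟨e3, f3⟩]
              norm_num
            linarith
        · have : c1 ρ.1 * t2 ρ.2.1 * q1 ρ.2.2 = 1 := by
            simp only [hc1, ht2, hq1]
            rw [if_pos e1, if_pos ⟨e2, f2⟩, if_pos e3]
            norm_num
          linarith
      · have : c2 ρ.1 * t1 ρ.2.1 * q1 ρ.2.2 = 1 := by
          simp only [hc2, ht1, hq1]
          rw [if_pos ⟨e1, f1⟩, if_pos e2, if_pos e3]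
          norm_num
        linarith
    · rw [if_neg h]
      linarith
  refine (Finset.expect_le_expect (fun ρ _ => h1 ρ)).trans ?_
  rw [Finset.expect_add_distrib, Finset.expect_add_distrib, expect_three c2 t1 q1,
    expect_three c1 t2 q1, expect_three c1 t1 q2]
  have E1 : (𝔼 τ, c1 τ) = 1 / Fintype.card Ω := exp_cov F hF ω
  have E2 : (𝔼 τ, c2 τ) ≤ ε / Fintype.card Ω := exp_cov_sub F hF g ω ε hε
  have E3 : (𝔼 t, t1 t) ≤ nsq v + 1 / m := thr_le m hm _ hnn hv
  have E4 : (𝔼 t, t2 t) ≤ max (nsq v - nsq w) 0 + 1 / m := thr_sub m hm _ _ hnn hv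
  have E5 : (𝔼 q, q1 q) = 1 / Fintype.card V := hash_one vec k m hm _
  have E6 : (𝔼 q, q2 q) ≤ (k * (α + S / (4 * α) + 1 / m)) * (1 / Fintype.card V) :=
    hash_sub vec k m hm _ _ α hα
  have N2 : 0 ≤ 𝔼 τ, c2 τ := Finset.expect_nonneg (fun τ _ => by
    simp only [hc2]
    split_ifs <;> norm_num)
  have N3 : 0 ≤ 𝔼 t, t1 t := Finset.expect_nonneg (fun τ _ => by
    simp only [ht1]
    split_ifs <;> norm_num)
  have N6 : 0 ≤ 𝔼 q, q2 q := Finset.expect_nonneg (fun τ _ => by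
    simp only [hq2]
    split_ifs <;> norm_num)
  rw [E1, E5]
  have G1 : (𝔼 τ, c2 τ) * (𝔼 t, t1 t) * (1 / Fintype.card V) ≤
      (ε / Fintype.card Ω) * (nsq v + 1 / m) * (1 / Fintype.card V) := by
    gcongr
  have G2 : 1 / (Fintype.card Ω : ℝ) * (𝔼 t, t2 t) * (1 / Fintype.card V) ≤
      1 / (Fintype.card Ω : ℝ) * (max (nsq v - nsq w) 0 + 1 / m) * (1 / Fintype.card V) := by
    gcongr
  have G3 : 1 / (Fintype.card Ω : ℝ) * (𝔼 t, t1 t) * (𝔼 q, q2 q) ≤
      1 / (Fintype.card Ω : ℝ) * (nsq v + 1 / m) *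
        ((k * (α + S / (4 * α) + 1 / m)) * (1 / Fintype.card V)) := by
    gcongr
  refine (add_le_add (add_le_add G1 G2) G3).trans (le_of_eq ?_)
  field_simp

end sel

end Pool.Agent.P325f1f.Amen
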