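import Mathlib
import Pool.Agent.Lib.P325f1f.Amen.Select
import Pool.Agent.Lib.P325f1f.Amen.Rounds

/-!
# A single round, for two whole systems of vectors
-/

open Finset
open scoped BigOperators

namespace Pool.Agent.P325f1f.Amen

theorem IsSys.le_one {Ω : Type} [Fintype Ω] {D : ℕ} {a : Ω → Fin D → ℝ} (ha : IsSys a) (ω : Ω) :
    nsq (a ω) ≤ 1 := by
  rw [← ha.2]
  exact Finset.single_le_sum (f := fun ω => nsq (a ω)) (fun ω _ => nsq_nonneg _) (mem_univ ω)

section

set_option linter.unusedSectionVars false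

variable {Γ Ω : Type} [Group Γ] [MulAction Γ Ω] [DecidableEq Ω] [Fintype Ω] [Nonempty Ω]
  {D : ℕ} {V : Type} [Nonempty V] [Fintype V] [DecidableEq V]
  (F : Finset Γ) (vec : V → Fin D → ℝ) (k m : ℕ)

open Classical in
/-- The label chosen in a round, if there is one. -/
noncomputable def choice (a : Ω → Fin D → ℝ) (ρ : Seed Ω V D F.card k m) : Option Ω :=
  if h : ∃ ω, sel F vec k m (a ω) ω ρ then some h.choose else none

theorem choice_none {a : Ω → Fin D → ℝ} {ρ : Seed Ω V D F.card k m}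
    (h : choice F vec k m a ρ = none) (ω : Ω) : ¬ sel F vec k m (a ω) ω ρ := by
  intro hω
  have hex : ∃ ω, sel F vec k m (a ω) ω ρ := ⟨ω, hω⟩
  rw [choice, dif_pos hex] at h
  exact Option.some_ne_none _ h

theorem choice_some {a : Ω → Fin D → ℝ} {ρ : Seed Ω V D F.card k m} {ω : Ω}
    (h : choice F vec k m a ρ = some ω) : sel F vec k m (a ω) ω ρ := by
  by_cases hex : ∃ ω, sel F vec k m (a ω) ω ρ
  · rw [choice, dif_pos hex] at h
    have h1 : hex.choose = ω := Option.some.inj h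
    rw [← h1]
    exact hex.choose_spec
  · rw [choice, dif_neg hex] at h
    exact absurd h.symm (Option.some_ne_none _)

open Classical in
/-- The number of ordered pairs of different selected labels. -/
noncomputable def dbl (a : Ω → Fin D → ℝ) (ρ : Seed Ω V D F.card k m) : ℝ :=
  ∑ ω, ∑ ω', if ω ≠ ω' ∧ sel F vec k m (a ω) ω ρ ∧ sel F vec k m (a ω') ω' ρ then 1 else 0

theorem dbl_nonneg (a : Ω → Fin D → ℝ) (ρ : Seed Ω V D F.card k m) : 0 ≤ dbl F vec k m a ρ :=
  Finset.sum_nonneg (fun _ _ => Finset.sum_nonneg (fun _ _ => by split_ifs <;> norm_num))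

theorem one_le_dbl {a : Ω → Fin D → ℝ} {ρ : Seed Ω V D F.card k m} {ω ω' : Ω} (hne : ω ≠ ω')
    (h : sel F vec k m (a ω) ω ρ) (h' : sel F vec k m (a ω') ω' ρ) :
    1 ≤ dbl F vec k m a ρ := by
  classical
  unfold dbl
  have h1 : (1 : ℝ) ≤ ∑ ω'', if ω ≠ ω'' ∧ sel F vec k m (a ω) ω ρ ∧
      sel F vec k m (a ω'') ω'' ρ then (1 : ℝ) else 0 := by
    refine le_trans (le_of_eq ?_) (Finset.single_le_sum
      (f := fun ω'' => if ω ≠ ω'' ∧ sel F vec k m (a ω) ω ρ ∧
      sel F vec k m (a ω'') ω'' ρ then (1 : ℝ) else 0)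
      (fun _ _ => by split_ifs <;> norm_num) (mem_univ ω'))
    rw [if_pos ⟨hne, h, h'⟩]
  refine h1.trans (le_trans (le_of_eq ?_) (Finset.single_le_sum
    (f := fun ω => ∑ ω'', if ω ≠ ω'' ∧ sel F vec k m (a ω) ω ρ ∧
      sel F vec k m (a ω'') ω'' ρ then (1 : ℝ) else 0)
    (fun _ _ => Finset.sum_nonneg (fun _ _ => by split_ifs <;> norm_num)) (mem_univ ω)))
  rfl

/-- The expected number of pairs. -/
theorem expect_dbl (hF : F.Nonempty) (hm : 0 < m) {a : Ω → Fin D → ℝ} (ha : IsSys a)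
    (har : ∀ ω, ∃ v', vec v' = nrm (a ω)) :
    (𝔼 ρ, dbl F vec k m a ρ) ≤ (1 / (Fintype.card Ω * Fintype.card V)) *
      ((1 + Fintype.card Ω / m) * (F.card * (9 / 10) ^ k)) := by
  classical
  have hmr : (0 : ℝ) < m := by exact_mod_cast hm
  have hΩ : (0 : ℝ) < Fintype.card Ω := by exact_mod_cast Fintype.card_pos
  have hV : (0 : ℝ) < Fintype.card V := by exact_mod_cast Fintype.card_pos
  unfold dbl
  rw [Finset.expect_sum_comm]
  have h1 : ∀ ω, (𝔼 ρ : Seed Ω V D F.card k m, ∑ ω', if ω ≠ ω' ∧ sel F vec k m (a ω) ω ρ ∧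
      sel F vec k m (a ω') ω' ρ then (1 : ℝ) else 0) ≤
      (nsq (a ω) + 1 / m) * ((9 / 10) ^ k * (1 / Fintype.card V)) *
        (F.card / Fintype.card Ω) := by
    intro ω
    rw [Finset.expect_sum_comm]
    have h2 : ∀ ω', (𝔼 ρ : Seed Ω V D F.card k m, if ω ≠ ω' ∧ sel F vec k m (a ω) ω ρ ∧
        sel F vec k m (a ω') ω' ρ then (1 : ℝ) else 0) ≤
        (𝔼 τ : Ω × Fin F.card, if cov F τ ω ∧ cov F τ ω' then (1 : ℝ) else 0) *
        ((nsq (a ω) + 1 / m) * ((9 / 10) ^ k * (1 / Fintype.card V))) := by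
      intro ω'
      have hnn : 0 ≤ (𝔼 τ : Ω × Fin F.card, if cov F τ ω ∧ cov F τ ω' then (1 : ℝ) else 0) *
        ((nsq (a ω) + 1 / m) * ((9 / 10) ^ k * (1 / Fintype.card V))) := by
        have e1 : 0 ≤ 𝔼 τ : Ω × Fin F.card, if cov F τ ω ∧ cov F τ ω' then (1 : ℝ) else 0 :=
          Finset.expect_nonneg (fun τ _ => by split_ifs <;> norm_num)
        have e2 := nsq_nonneg (a ω)
        positivity
      by_cases h : ω = ω'
      · refine le_trans (le_of_eq ?_) hnn
        refine (Finset.expect_congr rfl (fun ρ _ => ?_)).trans (Finset.expect_const_zero _)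
        rw [if_neg (fun h' => h'.1 h)]
      · have h3 := sel_two F vec k m hF hm (a ω) (a ω') (ha.le_one ω) (har ω) (har ω')
          (ha.1 ω ω' h) ω ω'
        rw [← mul_assoc]
        refine le_trans (le_of_eq ?_) h3
        refine Finset.expect_congr rfl (fun ρ _ => ?_)
        by_cases h' : sel F vec k m (a ω) ω ρ ∧ sel F vec k m (a ω') ω' ρ
        · rw [if_pos ⟨h, h'⟩, if_pos h']
        · rw [if_neg (fun h'' => h' h''.2), if_neg h']
    refine (Finset.sum_le_sum (fun ω' _ => h2 ω')).trans ?_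
    rw [← Finset.sum_mul, mul_comm]
    have e2 := nsq_nonneg (a ω)
    exact mul_le_mul_of_nonneg_left (sum_cov_le F hF ω) (by positivity)
  refine (Finset.sum_le_sum (fun ω _ => h1 ω)).trans (le_of_eq ?_)
  rw [← Finset.sum_mul, ← Finset.sum_mul, Finset.sum_add_distrib, ha.2, Finset.sum_const,
    Finset.card_univ, nsmul_eq_mul]
  field_simp

/-- The probability of a success. -/
theorem success (hF : F.Nonempty) (hm : 0 < m) {a : Ω → Fin D → ℝ} (ha : IsSys a)
    (har : ∀ ω, ∃ v', vec v' = nrm (a ω)) :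
    (1 / (Fintype.card Ω * Fintype.card V)) *
      (1 - (1 + Fintype.card Ω / m) * (F.card * (9 / 10) ^ k)) ≤
      𝔼 ρ, if choice F vec k m a ρ = none then (0 : ℝ) else 1 := by
  classical
  have h1 : ∀ ρ : Seed Ω V D F.card k m, (∑ ω, if sel F vec k m (a ω) ω ρ then (1 : ℝ) else 0) -
      dbl F vec k m a ρ ≤ if choice F vec k m a ρ = none then (0 : ℝ) else 1 := by
    intro ρ
    set x : Ω → ℝ := fun ω => if sel F vec k m (a ω) ω ρ then 1 else 0 with hx
    have hxx : ∀ ω, x ω * x ω = x ω := by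
      intro ω
      simp only [hx]
      split_ifs <;> norm_num
    have hd : dbl F vec k m a ρ = (∑ ω, x ω) ^ 2 - ∑ ω, x ω := by
      have e1 : ∀ ω ω', (if ω ≠ ω' ∧ sel F vec k m (a ω) ω ρ ∧ sel F vec k m (a ω') ω' ρ
          then (1 : ℝ) else 0) = x ω * x ω' - if ω = ω' then x ω else 0 := by
        intro ω ω'
        by_cases h : ω = ω'
        · subst h
          rw [if_neg (fun h => h.1 rfl), if_pos rfl, hxx, sub_self]
        · rw [if_neg h, sub_zero]
          simp only [hx]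
          by_cases h1 : sel F vec k m (a ω) ω ρ
          · by_cases h2 : sel F vec k m (a ω') ω' ρ
            · rw [if_pos ⟨h, h1, h2⟩, if_pos h1, if_pos h2, one_mul]
            · rw [if_neg (fun h' => h2 h'.2.2), if_neg h2, mul_zero]
          · rw [if_neg (fun h' => h1 h'.2.1), if_neg h1, zero_mul]
      unfold dbl
      simp only [e1, Finset.sum_sub_distrib]
      rw [pow_two, Finset.sum_mul_sum]
      congr 1
      refine Finset.sum_congr rfl (fun ω _ => ?_)
      rw [Finset.sum_ite_eq, if_pos (mem_univ ω)]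
    rw [hd]
    by_cases h : choice F vec k m a ρ = none
    · rw [if_pos h]
      have h0 : ∑ ω, x ω = 0 :=
        Finset.sum_eq_zero (fun ω _ => if_neg (choice_none F vec k m h ω))
      rw [h0]
      norm_num
    · rw [if_neg h]
      nlinarith [sq_nonneg (∑ ω, x ω - 1)]
  refine le_trans ?_ (Finset.expect_le_expect (fun ρ _ => h1 ρ))
  rw [Finset.expect_sub_distrib, Finset.expect_sum_comm]
  have h2 := expect_dbl F vec k m hF hm ha har
  have h3 : (1 : ℝ) / (Fintype.card Ω * Fintype.card V) ≤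
      ∑ ω, 𝔼 ρ : Seed Ω V D F.card k m, if sel F vec k m (a ω) ω ρ then (1 : ℝ) else 0 := by
    refine le_trans (le_of_eq ?_)
      (Finset.sum_le_sum (fun ω _ => sel_one F vec k m hF hm (a ω) (ha.le_one ω) ω))
    rw [← Finset.sum_div, ha.2]
  linarith

/-- The bound for the expected number of labels selected on one side only. -/
noncomputable def bd (ε α : ℝ) (k : ℕ) (δ T : ℝ) : ℝ :=
  ε * (1 + δ) + (4 * α + T / (4 * α) + δ) + k * ((α + δ) * (1 + δ) + T / α + δ / α)

open Classical in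
/-- The expected number of labels selected on one side only. -/
theorem sum_sub (hF : F.Nonempty) (hm : 0 < m) {a b : Ω → Fin D → ℝ} (ha : IsSys a)
    (hb : IsSys b) (g : Γ) (ε : ℝ) (hε0 : 0 ≤ ε)
    (hε : ((F.filter (fun f => f * g⁻¹ ∉ F)).card : ℝ) ≤ ε * F.card)
    (α : ℝ) (hα : 0 < α) (δ : ℝ) (hδ : (Fintype.card Ω : ℝ) / m ≤ δ) (T : ℝ)
    (hT : ∑ ω, ∑ i, (a ω i - b (g • ω) i) ^ 2 = T) :
    ∑ ω, (𝔼 ρ, if sel F vec k m (a ω) ω ρ ∧ ¬ sel F vec k m (b (g • ω)) (g • ω) ρ
      then (1 : ℝ) else 0) ≤ (1 / (Fintype.card Ω * Fintype.card V)) * bd ε α k δ T := by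
  have hmr : (0 : ℝ) < m := by exact_mod_cast hm
  have hΩ : (0 : ℝ) < Fintype.card Ω := by exact_mod_cast Fintype.card_pos
  have hΩ1 : (1 : ℝ) ≤ Fintype.card Ω := by exact_mod_cast Fintype.card_pos
  have hV : (0 : ℝ) < Fintype.card V := by exact_mod_cast Fintype.card_pos
  set r : ℝ := (Fintype.card Ω : ℝ) / m with hr
  have hr0 : 0 ≤ r := by positivity
  have hmr1 : 1 / (m : ℝ) ≤ r := by
    rw [hr]
    exact div_le_div_of_nonneg_right hΩ1 hmr.le
  have hm0 : 0 ≤ 1 / (m : ℝ) := by positivity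
  have hδ0 : 0 ≤ δ := hr0.trans hδ
  have hT0 : 0 ≤ T := by
    rw [← hT]
    exact Finset.sum_nonneg (fun _ _ => Finset.sum_nonneg (fun _ _ => sq_nonneg _))
  have h1 : ∀ ω, (𝔼 ρ : Seed Ω V D F.card k m, if sel F vec k m (a ω) ω ρ ∧
      ¬ sel F vec k m (b (g • ω)) (g • ω) ρ then (1 : ℝ) else 0) ≤
      (1 / (Fintype.card Ω * Fintype.card V)) * (ε * (nsq (a ω) + 1 / m) +
        (2 * α * (nsq (a ω) + nsq (b (g • ω))) + (∑ i, (a ω i - b (g • ω) i) ^ 2) / (4 * α) +
          1 / m) + k * ((nsq (a ω) + 1 / m) * (α + 1 / m) +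
          (4 * (∑ i, (a ω i - b (g • ω) i) ^ 2) + 4 * (1 / m)) / (4 * α))) := by
    intro ω
    refine (sel_sub F vec k m hF hm (a ω) (b (g • ω)) (ha.le_one ω) g ω ε hε0 hε α hα).trans ?_
    refine mul_le_mul_of_nonneg_left ?_ (by positivity)
    have e1 := max_sub_le (a ω) (b (g • ω)) α hα
    have e2 := nrm_diff (a ω) (b (g • ω))
    have e3 := nrm_dist_le (a ω) (b (g • ω))
    set S := ∑ i, (nrm (a ω) i - nrm (b (g • ω)) i) ^ 2 with hS
    have e4 : (nsq (a ω) + 1 / m) * (k * (α + S / (4 * α) + 1 / m)) =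
        k * ((nsq (a ω) + 1 / m) * (α + 1 / m) + (nsq (a ω) * S + S * (1 / m)) / (4 * α)) := by
      field_simp
      ring
    rw [e4]
    have e5 : (nsq (a ω) * S + S * (1 / m)) / (4 * α) ≤
        (4 * (∑ i, (a ω i - b (g • ω) i) ^ 2) + 4 * (1 / m)) / (4 * α) := by
      apply div_le_div_of_nonneg_right _ (by positivity)
      exact add_le_add e2 (mul_le_mul_of_nonneg_right e3 hm0)
    have e6 : (k : ℝ) * ((nsq (a ω) + 1 / m) * (α + 1 / m) +
        (nsq (a ω) * S + S * (1 / m)) / (4 * α)) ≤ k * ((nsq (a ω) + 1 / m) * (α + 1 / m) +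
        (4 * (∑ i, (a ω i - b (g • ω) i) ^ 2) + 4 * (1 / m)) / (4 * α)) :=
      mul_le_mul_of_nonneg_left (by linarith) (Nat.cast_nonneg k)
    linarith
  refine (Finset.sum_le_sum (fun ω _ => h1 ω)).trans ?_
  rw [← Finset.mul_sum]
  refine mul_le_mul_of_nonneg_left ?_ (by positivity)
  -- the sums
  have s1 : ∑ ω, nsq (b (g • ω)) = 1 := by
    rw [← hb.2]
    exact Equiv.sum_comp (MulAction.toPerm g) (fun ω => nsq (b ω))
  have s2 : ∑ _ω : Ω, (1 : ℝ) / m = r := by
    rw [Finset.sum_const, Finset.card_univ, nsmul_eq_mul, hr]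
    ring
  have s3 : ∑ ω, (ε * (nsq (a ω) + 1 / m) +
        (2 * α * (nsq (a ω) + nsq (b (g • ω))) + (∑ i, (a ω i - b (g • ω) i) ^ 2) / (4 * α) +
          1 / m) + k * ((nsq (a ω) + 1 / m) * (α + 1 / m) +
          (4 * (∑ i, (a ω i - b (g • ω) i) ^ 2) + 4 * (1 / m)) / (4 * α))) =
      ε * (1 + r) + (2 * α * (1 + 1) + T / (4 * α) + r) +
        k * ((1 + r) * (α + 1 / m) + (4 * T + 4 * r) / (4 * α)) := by
    have e1 : ∀ ω, (ε * (nsq (a ω) + 1 / m) +
        (2 * α * (nsq (a ω) + nsq (b (g • ω))) + (∑ i, (a ω i - b (g • ω) i) ^ 2) / (4 * α) +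
          1 / m) + k * ((nsq (a ω) + 1 / m) * (α + 1 / m) +
          (4 * (∑ i, (a ω i - b (g • ω) i) ^ 2) + 4 * (1 / m)) / (4 * α))) =
        (ε + 2 * α + k * (α + 1 / m)) * nsq (a ω) + 2 * α * nsq (b (g • ω)) +
        (1 / (4 * α) + k / α) * (∑ i, (a ω i - b (g • ω) i) ^ 2) +
        (ε + 1 + k * (α + 1 / m) + k / α) * (1 / m) := by
      intro ω
      field_simp
      ring
    rw [Finset.sum_congr rfl (fun ω _ => e1 ω), Finset.sum_add_distrib, Finset.sum_add_distrib,
      Finset.sum_add_distrib, ← Finset.mul_sum, ← Finset.mul_sum, ← Finset.mul_sum,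
      ← Finset.mul_sum, ha.2, s1, s2, hT]
    field_simp
    ring
  rw [s3, bd]
  have t1 : ε * (1 + r) ≤ ε * (1 + δ) := mul_le_mul_of_nonneg_left (by linarith) hε0
  have t2 : (1 + r) * (α + 1 / m) ≤ (α + δ) * (1 + δ) := by
    rw [mul_comm]
    exact mul_le_mul (by linarith) (by linarith) (by linarith) (by linarith)
  have t3 : (4 * T + 4 * r) / (4 * α) ≤ T / α + δ / α := by
    rw [← add_div, div_le_div_iff₀ (by positivity) hα]
    nlinarith
  have t4 : (k : ℝ) * ((1 + r) * (α + 1 / m) + (4 * T + 4 * r) / (4 * α)) ≤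
      k * ((α + δ) * (1 + δ) + T / α + δ / α) :=
    mul_le_mul_of_nonneg_left (by linarith) (Nat.cast_nonneg k)
  linarith

/-- The probability of a disagreement in a round. -/
theorem bad_le (hF : F.Nonempty) (hm : 0 < m) {a b : Ω → Fin D → ℝ} (ha : IsSys a)
    (hb : IsSys b) (har : ∀ ω, ∃ v', vec v' = nrm (a ω)) (hbr : ∀ ω, ∃ v', vec v' = nrm (b ω))
    (g : Γ) (ε : ℝ) (hε0 : 0 ≤ ε)
    (hε : ∀ _ : DecidableEq Γ, ((F.filter (fun f => f * g ∉ F)).card : ℝ) ≤ ε * F.card ∧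
      ((F.filter (fun f => f * g⁻¹ ∉ F)).card : ℝ) ≤ ε * F.card)
    (α : ℝ) (hα : 0 < α) (δ : ℝ) (hδ : (Fintype.card Ω : ℝ) / m ≤ δ) (T : ℝ)
    (hT : ∑ ω, ∑ i, (a ω i - b (g • ω) i) ^ 2 = T) :
    (𝔼 ρ, if (choice F vec k m a ρ = none ∧ choice F vec k m b ρ = none) ∨
      (∃ ω, choice F vec k m a ρ = some ω ∧ choice F vec k m b ρ = some (g • ω))
      then (0 : ℝ) else 1) ≤ (1 / (Fintype.card Ω * Fintype.card V)) *
        (2 * bd ε α k δ T + 2 * ((1 + δ) * (F.card * (9 / 10) ^ k))) := by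
  classical
  have hΩ : (0 : ℝ) < Fintype.card Ω := by exact_mod_cast Fintype.card_pos
  have hV : (0 : ℝ) < Fintype.card V := by exact_mod_cast Fintype.card_pos
  have h1 : ∀ ρ : Seed Ω V D F.card k m,
      (if (choice F vec k m a ρ = none ∧ choice F vec k m b ρ = none) ∨
      (∃ ω, choice F vec k m a ρ = some ω ∧ choice F vec k m b ρ = some (g • ω))
      then (0 : ℝ) else 1) ≤
      (∑ ω, if sel F vec k m (a ω) ω ρ ∧ ¬ sel F vec k m (b (g • ω)) (g • ω) ρ
        then (1 : ℝ) else 0) +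
      (∑ ω, if sel F vec k m (b ω) ω ρ ∧ ¬ sel F vec k m (a (g⁻¹ • ω)) (g⁻¹ • ω) ρ
        then (1 : ℝ) else 0) + dbl F vec k m a ρ + dbl F vec k m b ρ := by
    intro ρ
    have n1 : 0 ≤ ∑ ω, if sel F vec k m (a ω) ω ρ ∧ ¬ sel F vec k m (b (g • ω)) (g • ω) ρ
        then (1 : ℝ) else 0 := Finset.sum_nonneg (fun _ _ => by split_ifs <;> norm_num)
    have n2 : 0 ≤ ∑ ω, if sel F vec k m (b ω) ω ρ ∧ ¬ sel F vec k m (a (g⁻¹ • ω)) (g⁻¹ • ω) ρ
        then (1 : ℝ) else 0 := Finset.sum_nonneg (fun _ _ => by split_ifs <;> norm_num)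
    have n3 := dbl_nonneg F vec k m a ρ
    have n4 := dbl_nonneg F vec k m b ρ
    by_cases hgood : (choice F vec k m a ρ = none ∧ choice F vec k m b ρ = none) ∨
      (∃ ω, choice F vec k m a ρ = some ω ∧ choice F vec k m b ρ = some (g • ω))
    · rw [if_pos hgood]
      linarith
    · rw [if_neg hgood]
      by_cases c1 : ∃ ω, sel F vec k m (a ω) ω ρ ∧ ¬ sel F vec k m (b (g • ω)) (g • ω) ρ
      · obtain ⟨ω, hω⟩ := c1
        have : (1 : ℝ) ≤ ∑ ω, if sel F vec k m (a ω) ω ρ ∧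
            ¬ sel F vec k m (b (g • ω)) (g • ω) ρ then (1 : ℝ) else 0 := by
          refine le_trans (le_of_eq ?_) (Finset.single_le_sum
            (f := fun ω => if sel F vec k m (a ω) ω ρ ∧
            ¬ sel F vec k m (b (g • ω)) (g • ω) ρ then (1 : ℝ) else 0)
            (fun _ _ => by split_ifs <;> norm_num) (mem_univ ω))
          rw [if_pos hω]
        linarith
      by_cases c2 : ∃ ω, sel F vec k m (b ω) ω ρ ∧
          ¬ sel F vec k m (a (g⁻¹ • ω)) (g⁻¹ • ω) ρ
      · obtain ⟨ω, hω⟩ := c2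
        have : (1 : ℝ) ≤ ∑ ω, if sel F vec k m (b ω) ω ρ ∧
            ¬ sel F vec k m (a (g⁻¹ • ω)) (g⁻¹ • ω) ρ then (1 : ℝ) else 0 := by
          refine le_trans (le_of_eq ?_) (Finset.single_le_sum
            (f := fun ω => if sel F vec k m (b ω) ω ρ ∧
            ¬ sel F vec k m (a (g⁻¹ • ω)) (g⁻¹ • ω) ρ then (1 : ℝ) else 0)
            (fun _ _ => by split_ifs <;> norm_num) (mem_univ ω))
          rw [if_pos hω]
        linarith
      push Not at c1 c2
      rcases h : choice F vec k m a ρ with _ | ω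
      · -- nothing on the left
        exfalso
        rcases h' : choice F vec k m b ρ with _ | ω'
        · exact hgood (Or.inl ⟨h, h'⟩)
        · exact choice_none F vec k m h _ (c2 ω' (choice_some F vec k m h'))
      · have e1 := choice_some F vec k m h
        have e2 := c1 ω e1
        rcases h' : choice F vec k m b ρ with _ | ω'
        · exact absurd e2 (choice_none F vec k m h' _)
        · have e3 := choice_some F vec k m h'
          have hne : ω' ≠ g • ω := by
            intro heq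
            apply hgood
            right
            exact ⟨ω, h, by rw [h', heq]⟩
          have := one_le_dbl F vec k m hne e3 e2
          linarith
  refine (Finset.expect_le_expect (fun ρ _ => h1 ρ)).trans ?_
  rw [Finset.expect_add_distrib, Finset.expect_add_distrib, Finset.expect_add_distrib,
    Finset.expect_sum_comm, Finset.expect_sum_comm]
  have hε' := hε inferInstance
  have hT' : ∑ ω, ∑ i, (b ω i - a (g⁻¹ • ω) i) ^ 2 = T := by
    rw [← hT, ← Equiv.sum_comp (MulAction.toPerm g)]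
    refine Finset.sum_congr rfl (fun ω _ => Finset.sum_congr rfl (fun i _ => ?_))
    rw [MulAction.toPerm_apply, inv_smul_smul]
    ring
  have s1 := sum_sub F vec k m hF hm ha hb g ε hε0 hε'.2 α hα δ hδ T hT
  have s2 := sum_sub F vec k m hF hm hb ha g⁻¹ ε hε0 (by rw [inv_inv]; exact hε'.1) α hα δ hδ T
    hT'
  have s3 := expect_dbl F vec k m hF hm ha har
  have s4 := expect_dbl F vec k m hF hm hb hbr
  have s5 : (1 / (Fintype.card Ω * Fintype.card V : ℝ)) *
      ((1 + Fintype.card Ω / m) * (F.card * (9 / 10) ^ k)) ≤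
      (1 / (Fintype.card Ω * Fintype.card V : ℝ)) * ((1 + δ) * (F.card * (9 / 10) ^ k)) := by
    refine mul_le_mul_of_nonneg_left ?_ (by positivity)
    exact mul_le_mul_of_nonneg_right (by linarith) (by positivity)
  linarith

end

end Pool.Agent.P325f1f.Amen
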