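import Mathlib
import Pool.Agent.Lib.P325f1f.Dich.Games
import Pool.Agent.Lib.P325f1f.Amen.Sums

/-!
# The basic semidefinite relaxation for the constraint permutations of an amenable group
-/

open Finset
open scoped BigOperators

namespace Pool.Agent.P325f1f.Amen

open Pool.Agent.P325f1f.Dich

/-- The parameters. -/
theorem params (κ : ℝ) (hκ : 0 < κ) (f : ℕ) : ∃ (k : ℕ) (α δ T0 : ℝ), 0 < α ∧ 0 < δ ∧ δ ≤ 1 ∧
    0 < T0 ∧ (1 + δ) * (f * (9 / 10) ^ k) ≤ 1 / 2 ∧
    ∀ T, T ≤ T0 → 4 * bd (κ / 100) α k δ T + 4 * ((1 + δ) * (f * (9 / 10) ^ k)) ≤ κ := by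
  -- the number of hash functions
  obtain ⟨k, hk⟩ : ∃ k : ℕ, (9 / 10 : ℝ) ^ k < min (κ / 100) (1 / 4) / (f + 1) :=
    exists_pow_lt_of_lt_one (by
      have : 0 < min (κ / 100) (1 / 4) := lt_min (by positivity) (by norm_num)
      positivity) (by norm_num)
  have hf : (f : ℝ) * (9 / 10) ^ k ≤ min (κ / 100) (1 / 4) := by
    rw [lt_div_iff₀ (by positivity)] at hk
    have : 0 < (9 / 10 : ℝ) ^ k := by positivity
    nlinarith
  have hf1 := hf.trans (min_le_left _ _)
  have hf2 := hf.trans (min_le_right _ _)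
  have hf0 : 0 ≤ (f : ℝ) * (9 / 10) ^ k := by positivity
  have hkn : (0 : ℝ) ≤ k := Nat.cast_nonneg k
  set α : ℝ := κ / (200 * (k + 2)) with hα
  have hα0 : 0 < α := by positivity
  have hαk : α * (k + 2) = κ / 200 := by
    rw [hα]
    field_simp
  set δ : ℝ := min 1 (κ / (200 * (1 + 2 * k + k / α + κ))) with hδ
  have hδ0 : 0 < δ := lt_min one_pos (by positivity)
  have hδ1 : δ ≤ 1 := min_le_left _ _
  have hδ2 : δ * (1 + 2 * k + k / α + κ) ≤ κ / 200 := by
    have h1 : δ ≤ κ / (200 * (1 + 2 * k + k / α + κ)) := min_le_right _ _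
    have h2 : 0 < 1 + 2 * (k : ℝ) + k / α + κ := by positivity
    rw [le_div_iff₀ (by positivity)] at h1
    linarith
  set T0 : ℝ := κ * α / (20 * (1 + 4 * k)) with hT0
  have hT00 : 0 < T0 := by positivity
  refine ⟨k, α, δ, T0, hα0, hδ0, hδ1, hT00, by nlinarith, ?_⟩
  intro T hT
  have hT1 : T / (4 * α) + k * (T / α) ≤ κ / 80 := by
    have h1 : T / (4 * α) + k * (T / α) = T * (1 + 4 * k) / (4 * α) := by
      field_simp
    rw [h1, div_le_iff₀ (by positivity)]
    have h2 : T * (1 + 4 * k) ≤ T0 * (1 + 4 * k) := mul_le_mul_of_nonneg_right hT (by positivity)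
    have h3 : T0 * (1 + 4 * k) = κ * α / 20 := by
      rw [hT0]
      field_simp
    linarith
  have e1 : bd (κ / 100) α k δ T = κ / 100 * (1 + δ) + 4 * α + (T / (4 * α) + k * (T / α)) + δ +
      k * (α + δ) * (1 + δ) + k * (δ / α) := by
    rw [bd]
    ring
  have e2 : k * (α + δ) * (1 + δ) ≤ 2 * (k * α) + 2 * (k * δ) := by
    have : 0 ≤ k * (α + δ) := by positivity
    nlinarith
  have e3 : δ + 2 * (k * δ) + k * (δ / α) + δ * κ ≤ κ / 200 := by
    have h4 : δ * (1 + 2 * k + k / α + κ) = δ + 2 * (k * δ) + k * (δ / α) + δ * κ := by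
      field_simp
    linarith
  have e4 : κ / 100 * (1 + δ) ≤ κ / 50 := by nlinarith
  have e5 : 4 * α + 2 * (k * α) ≤ κ / 100 := by nlinarith
  have e6 : (1 + δ) * (f * (9 / 10) ^ k) ≤ κ / 50 := by nlinarith
  have e7 : 0 ≤ δ * κ := by positivity
  rw [e1]
  linarith

theorem easy {Γ : Type} [Group Γ] {d : ℕ} (s : Fin d → Γ) (hs : Folner s) (κ : ℝ) (hκ : 0 < κ) :
    ∃ ε : ℝ, 0 < ε ∧ ∀ (Ω : Type) [Fintype Ω] [Nonempty Ω] [MulAction Γ Ω] (U W ι : Type)
      [Fintype ι] [Nonempty ι] (I : Game U W Ω ι),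
      (∀ e, ∃ k, I.perm e = MulAction.toPerm (s k)) →
      ∀ (D : ℕ) (a : U → Ω → Fin D → ℝ) (b : W → Ω → Fin D → ℝ), (∀ u, IsSys (a u)) →
        (∀ w, IsSys (b w)) →
        1 - ε ≤ (𝔼 e, ∑ ω, ∑ i, a (I.src e) ω i * b (I.dst e) (I.perm e ω) i) →
        1 - κ ≤ I.value := by
  classical
  obtain ⟨F, hF, hFs⟩ := exists_right_folner s hs (κ / 100) (by positivity)
  obtain ⟨k, α, δ, T0, hα, hδ, hδ1, hT0, hhalf, hbd⟩ := params κ hκ F.card
  refine ⟨T0 / 2, by positivity, ?_⟩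
  intro Ω _ _ _ U W ι _ _ I hI D a b ha hb hobj
  have hΩ : (0 : ℝ) < Fintype.card Ω := by exact_mod_cast Fintype.card_pos
  obtain ⟨o⟩ := ‹Nonempty Ω›
  have hneΩ : Nonempty Ω := ⟨o⟩
  obtain ⟨e0⟩ := ‹Nonempty ι›
  have hneι : Nonempty ι := ⟨e0⟩
  -- the precision
  obtain ⟨m', hm'⟩ := exists_nat_gt ((Fintype.card Ω : ℝ) / δ)
  set m := m' + 1 with hm
  have hm0 : 0 < m := Nat.succ_pos _
  have hmr : (0 : ℝ) < m := by exact_mod_cast hm0
  have hmδ : (Fintype.card Ω : ℝ) / m ≤ δ := by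
    rw [div_lt_iff₀ hδ] at hm'
    rw [div_le_iff₀ hmr, hm]
    push_cast
    nlinarith
  -- the names of the classes
  set V : Type := Bool × ι × Ω with hV
  set vec : V → Fin D → ℝ := fun v => if v.1 then nrm (a (I.src v.2.1) v.2.2) else
    nrm (b (I.dst v.2.1) v.2.2) with hvec
  have har : ∀ e ω, ∃ v', vec v' = nrm (a (I.src e) ω) := fun e ω => ⟨(true, e, ω), rfl⟩
  have hbr : ∀ e ω, ∃ v', vec v' = nrm (b (I.dst e) ω) := fun e ω => ⟨(false, e, ω), rfl⟩
  have hneV : Nonempty V := ⟨(true, e0, o)⟩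
  have hVc : (0 : ℝ) < Fintype.card V := by exact_mod_cast Fintype.card_pos
  have hneF : Nonempty (Fin F.card) := ⟨⟨0, hF.card_pos⟩⟩
  have hneM : Nonempty (Fin m) := ⟨⟨0, hm0⟩⟩
  set Z : ℝ := 1 / (Fintype.card Ω * Fintype.card V) with hZ
  have hZ0 : 0 < Z := by positivity
  set φ : ℝ := F.card * (9 / 10) ^ k with hφ
  have hφ0 : 0 ≤ φ := by positivity
  set p : ℝ := Z * (1 - (1 + δ) * φ) with hp
  have hp0 : 0 < p := mul_pos hZ0 (by linarith)
  -- the loss of an edge
  set T : ι → ℝ := fun e => ∑ ω, ∑ i, (a (I.src e) ω i - b (I.dst e) (I.perm e ω) i) ^ 2 with hT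
  have hT0' : ∀ e, 0 ≤ T e := fun e =>
    Finset.sum_nonneg (fun _ _ => Finset.sum_nonneg (fun _ _ => sq_nonneg _))
  set L : ι → ℝ := fun e => 4 * bd (κ / 100) α k δ (T e) + 4 * ((1 + δ) * φ) with hL
  have hbd0 : ∀ e, 0 ≤ bd (κ / 100) α k δ (T e) := by
    intro e
    have := hT0' e
    rw [bd]
    positivity
  have hL0 : ∀ e, 0 ≤ L e := by
    intro e
    have := hbd0 e
    simp only [hL]
    positivity
  -- the labelings
  set P : U → Seed Ω V D F.card k m → Option Ω := fun u => choice F vec k m (a u) with hP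
  set Q : W → Seed Ω V D F.card k m → Option Ω := fun w => choice F vec k m (b w) with hQ
  have hedge : ∀ n e, (𝔼 ρ : Fin n → Seed Ω V D F.card k m,
      if I.perm e (lab (P (I.src e)) o n ρ) = lab (Q (I.dst e)) o n ρ then (0 : ℝ) else 1) ≤
      L e + (1 - p) ^ n := by
    intro n e
    obtain ⟨j, hj⟩ := hI e
    refine rounds (P (I.src e)) (Q (I.dst e)) (I.perm e) o o p (L e) hp0.le (hL0 e) ?_ ?_ n
    · have h1 := success F vec k m hF hm0 (ha (I.src e)) (har e)
      refine le_trans ?_ h1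
      rw [hp]
      refine mul_le_mul_of_nonneg_left ?_ hZ0.le
      have : (1 + (Fintype.card Ω : ℝ) / m) * φ ≤ (1 + δ) * φ :=
        mul_le_mul_of_nonneg_right (by linarith) hφ0
      linarith
    · have h1 := bad_le F vec k m hF hm0 (ha (I.src e)) (hb (I.dst e)) (har e) (hbr e) (s j)
        (κ / 100) (by positivity) (fun dΓ => hFs dΓ j) α hα δ hmδ (T e) (by
          rw [hT]
          simp only [hj]
          rfl)
      have h2 : (I.perm e : Ω → Ω) = fun ω => s j • ω := by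
        rw [hj]
        rfl
      rw [h2]
      refine h1.trans ?_
      rw [hp, hL]
      have h3 := hbd0 e
      have h4 : 0 ≤ (1 + δ) * φ := by positivity
      have h5 : Z * (2 * bd (κ / 100) α k δ (T e) + 2 * ((1 + δ) * φ)) ≤
          (4 * bd (κ / 100) α k δ (T e) + 4 * ((1 + δ) * φ)) * (Z * (1 - (1 + δ) * φ)) := by
        have h6 : (4 * bd (κ / 100) α k δ (T e) + 4 * ((1 + δ) * φ)) *
            (Z * (1 - (1 + δ) * φ)) - Z * (2 * bd (κ / 100) α k δ (T e) + 2 * ((1 + δ) * φ)) =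
            Z * ((2 * bd (κ / 100) α k δ (T e) + 2 * ((1 + δ) * φ)) *
              (2 * (1 - (1 + δ) * φ) - 1)) := by ring
        have h7 : 0 ≤ Z * ((2 * bd (κ / 100) α k δ (T e) + 2 * ((1 + δ) * φ)) *
              (2 * (1 - (1 + δ) * φ) - 1)) := by
          refine mul_nonneg hZ0.le (mul_nonneg (by linarith) (by linarith))
        linarith
      exact h5
  -- the average loss
  have hTavg : (𝔼 e, T e) ≤ T0 := by
    have h1 : ∀ e, T e = 2 - 2 * ∑ ω, ∑ i, a (I.src e) ω i * b (I.dst e) (I.perm e ω) i := by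
      intro e
      have h2 : ∀ ω, ∑ i, (a (I.src e) ω i - b (I.dst e) (I.perm e ω) i) ^ 2 =
          nsq (a (I.src e) ω) + nsq (b (I.dst e) (I.perm e ω)) -
            2 * ∑ i, a (I.src e) ω i * b (I.dst e) (I.perm e ω) i := fun ω => nsq_sub _ _
      simp only [hT]
      rw [Finset.sum_congr rfl (fun ω _ => h2 ω), Finset.sum_sub_distrib, Finset.sum_add_distrib,
        (ha (I.src e)).2, Equiv.sum_comp (I.perm e) (fun ω => nsq (b (I.dst e) ω)),
        (hb (I.dst e)).2, ← Finset.mul_sum]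
      ring
    rw [Finset.expect_congr rfl (fun e _ => h1 e), Finset.expect_sub_distrib,
      Fintype.expect_const, ← Finset.mul_expect]
    linarith
  have hLavg : (𝔼 e, L e) ≤ κ := by
    have h1 : (𝔼 e, L e) = 4 * bd (κ / 100) α k δ (𝔼 e, T e) + 4 * ((1 + δ) * φ) := by
      have h2 : ∀ x : ℝ, 4 * bd (κ / 100) α k δ x + 4 * ((1 + δ) * φ) =
          (1 / α + 4 * k / α) * x + (4 * (κ / 100 * (1 + δ) + (4 * α + δ) +
            k * ((α + δ) * (1 + δ) + δ / α)) + 4 * ((1 + δ) * φ)) := by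
        intro x
        rw [bd]
        field_simp
        ring
      rw [h2 (𝔼 e, T e)]
      have h3 : ∀ e, L e = (1 / α + 4 * k / α) * T e + (4 * (κ / 100 * (1 + δ) + (4 * α + δ) +
            k * ((α + δ) * (1 + δ) + δ / α)) + 4 * ((1 + δ) * φ)) := fun e => h2 (T e)
      rw [Finset.expect_congr rfl (fun e _ => h3 e), Finset.expect_add_distrib,
        Fintype.expect_const, ← Finset.mul_expect]
    rw [h1]
    exact hbd _ hTavg
  -- conclusion
  have hfin : ∀ n : ℕ, 1 - I.value ≤ κ + (1 - p) ^ n := by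
    intro n
    have h1 : ∀ ρ : Fin n → Seed Ω V D F.card k m, 1 - I.value ≤
        𝔼 e, if I.perm e (lab (P (I.src e)) o n ρ) = lab (Q (I.dst e)) o n ρ
          then (0 : ℝ) else 1 := by
      intro ρ
      have h2 := le_value I (fun u => lab (P u) o n ρ) (fun w => lab (Q w) o n ρ)
      rw [satFrac_eq] at h2
      have h3 : ∀ e, (if I.perm e (lab (P (I.src e)) o n ρ) = lab (Q (I.dst e)) o n ρ
          then (0 : ℝ) else 1) = 1 - (if I.perm e (lab (P (I.src e)) o n ρ) =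
            lab (Q (I.dst e)) o n ρ then (1 : ℝ) else 0) := by
        intro e
        split_ifs <;> norm_num
      rw [Finset.expect_congr rfl (fun e _ => h3 e), Finset.expect_sub_distrib,
        Fintype.expect_const]
      linarith
    have h2 : 1 - I.value ≤ 𝔼 ρ : Fin n → Seed Ω V D F.card k m, 𝔼 e,
        if I.perm e (lab (P (I.src e)) o n ρ) = lab (Q (I.dst e)) o n ρ
          then (0 : ℝ) else 1 :=
      Finset.le_expect Finset.univ_nonempty (fun ρ _ => h1 ρ)
    rw [Finset.expect_comm] at h2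
    refine h2.trans ((Finset.expect_le_expect (fun e _ => hedge n e)).trans ?_)
    rw [Finset.expect_add_distrib, Fintype.expect_const]
    linarith
  have hp1 : p ≤ 1 := by
    have h1 := success F vec k m hF hm0 (ha (I.src e0)) (har e0)
    have h2 : (𝔼 ρ, if choice F vec k m (a (I.src e0)) ρ = none then (0 : ℝ) else 1) ≤ 1 :=
      Finset.expect_le Finset.univ_nonempty (fun θ _ => by split_ifs <;> norm_num)
    have h3 : p ≤ Z * (1 - (1 + (Fintype.card Ω : ℝ) / m) * φ) := by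
      rw [hp]
      refine mul_le_mul_of_nonneg_left ?_ hZ0.le
      have : (1 + (Fintype.card Ω : ℝ) / m) * φ ≤ (1 + δ) * φ :=
        mul_le_mul_of_nonneg_right (by linarith) hφ0
      linarith
    exact h3.trans (h1.trans h2)
  have hlim : 1 - I.value ≤ κ := by
    refine le_of_forall_pos_le_add (fun x hx => ?_)
    obtain ⟨n, hn⟩ := exists_pow_lt_of_lt_one hx (show 1 - p < 1 by linarith)
    linarith [hfin n]
  linarith

end Pool.Agent.P325f1f.Amen
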