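import Mathlib

/-!
# Layer cake for weighted graphs

If every small set `H` of vertices contains at most `c * |H|` (oriented) edges, then the sum of
`min (w v) (w (τ k v))` over the edges inside a small set is at most `c * ∑ w`.
-/

open Finset
open scoped BigOperators

namespace Pool.Agent.P325f1f.Amen

theorem layer_cake {V κ : Type} [Fintype κ] [DecidableEq V] (τ : κ → V → V) (c : ℝ) (N : ℕ)
    (hQ : ∀ H : Finset V, H.card ≤ N →
      (∑ v ∈ H, ∑ k, if τ k v ∈ H then (1 : ℝ) else 0) ≤ c * H.card)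
    (H : Finset V) (hN : H.card ≤ N) : ∀ (w : V → ℝ), (∀ v, 0 ≤ w v) →
      ∑ v ∈ H, ∑ k, (if τ k v ∈ H then min (w v) (w (τ k v)) else 0) ≤ c * ∑ v ∈ H, w v := by
  induction H using Finset.strongInduction with
  | H H ih =>
    intro w hw
    rcases H.eq_empty_or_nonempty with rfl | hne
    · simp
    obtain ⟨v0, hv0, hmin⟩ := Finset.exists_min_image H w hne
    set m : ℝ := w v0 with hm
    have hm0 : 0 ≤ m := hw v0
    set w' : V → ℝ := fun v => max 0 (w v - m) with hw'
    have hw'0 : ∀ v, 0 ≤ w' v := fun v => le_max_left _ _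
    have hw'H : ∀ v ∈ H, w' v = w v - m := fun v hv =>
      max_eq_right (sub_nonneg.2 (hmin v hv))
    have hw'v0 : w' v0 = 0 := by
      rw [hw'H v0 hv0, hm]
      ring
    have ih' := ih (H.erase v0) (Finset.erase_ssubset hv0)
      ((Finset.card_le_card (Finset.erase_subset v0 H)).trans hN) w' hw'0
    have h1 : ∀ v ∈ H, ∑ k, (if τ k v ∈ H then min (w v) (w (τ k v)) else 0) =
        m * (∑ k, if τ k v ∈ H then (1 : ℝ) else 0) +
        ∑ k, (if τ k v ∈ H then min (w' v) (w' (τ k v)) else 0) := by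
      intro v hv
      rw [Finset.mul_sum, ← Finset.sum_add_distrib]
      refine Finset.sum_congr rfl (fun k _ => ?_)
      by_cases h : τ k v ∈ H
      · rw [if_pos h, if_pos h, if_pos h, hw'H v hv, hw'H _ h, min_sub_sub_right]
        ring
      · rw [if_neg h, if_neg h, if_neg h]
        ring
    have h2 : ∑ v ∈ H, ∑ k, (if τ k v ∈ H then min (w' v) (w' (τ k v)) else 0) =
        ∑ v ∈ H.erase v0, ∑ k, (if τ k v ∈ H.erase v0 then min (w' v) (w' (τ k v)) else 0) := by
      rw [← Finset.add_sum_erase H _ hv0]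
      have h3 : ∑ k, (if τ k v0 ∈ H then min (w' v0) (w' (τ k v0)) else 0) = 0 := by
        refine Finset.sum_eq_zero (fun k _ => ?_)
        split_ifs
        · rw [hw'v0]
          exact min_eq_left (hw'0 _)
        · rfl
      rw [h3, zero_add]
      refine Finset.sum_congr rfl (fun v _ => Finset.sum_congr rfl (fun k _ => ?_))
      by_cases h : τ k v = v0
      · rw [h, if_pos hv0, if_neg (Finset.notMem_erase v0 H), hw'v0]
        exact min_eq_right (hw'0 _)
      · by_cases h' : τ k v ∈ H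
        · rw [if_pos h', if_pos (Finset.mem_erase.2 ⟨h, h'⟩)]
        · rw [if_neg h', if_neg (fun h'' => h' (Finset.mem_of_mem_erase h''))]
    have h4 : ∑ v ∈ H, w v = m * H.card + ∑ v ∈ H.erase v0, w' v := by
      have h5 : ∑ v ∈ H, w v = ∑ v ∈ H, (m + w' v) :=
        Finset.sum_congr rfl (fun v hv => by rw [hw'H v hv]; ring)
      rw [h5, Finset.sum_add_distrib, Finset.sum_const, nsmul_eq_mul,
        ← Finset.add_sum_erase H w' hv0, hw'v0]
      ring
    rw [Finset.sum_congr rfl h1, Finset.sum_add_distrib, ← Finset.mul_sum, h2, h4]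
    have h6 := hQ H hN
    nlinarith

/-- The average acceptance of two distributions on their heavy labels, from the number of edges in
small sets. -/
theorem min_sum_le {Ω : Type} [Fintype Ω] [DecidableEq Ω] (d : ℕ) (hd : 0 < d) (σ : Fin d → Equiv.Perm Ω)
    (c : ℝ) (hc : 0 ≤ c) (η : ℝ) (hη : 0 < η) (N : ℕ) (hN : 2 / η ≤ N)
    (hQ : ∀ H1 H2 : Finset Ω, H1.card + H2.card ≤ N →
      (∑ k, ∑ ω ∈ H1, if σ k ω ∈ H2 then (1 : ℝ) else 0) ≤ c * (H1.card + H2.card))
    (μ ν : Ω → ℝ) (hμ : ∀ ω, 0 ≤ μ ω) (hν : ∀ ω, 0 ≤ ν ω) (hμ1 : ∑ ω, μ ω = 1)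
    (hν1 : ∑ ω, ν ω = 1) :
    (𝔼 k, ∑ ω, if η < μ ω ∧ η < ν (σ k ω) then min (μ ω) (ν (σ k ω)) else 0) ≤ 2 * c / d := by
  classical
  set τ : Fin d → Bool × Ω → Bool × Ω :=
    fun k v => (!v.1, if v.1 then (σ k).symm v.2 else σ k v.2) with hτ
  set w : Bool × Ω → ℝ := fun v => if v.1 then ν v.2 else μ v.2 with hw
  have hw0 : ∀ v, 0 ≤ w v := by
    rintro ⟨b, ω⟩
    cases b
    · exact hμ ω
    · exact hν ω
  have hwsum : ∑ v, w v = 2 := by
    rw [Fintype.sum_prod_type, Fintype.sum_bool]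
    have e1 : ∑ ω, w (true, ω) = 1 := hν1
    have e2 : ∑ ω, w (false, ω) = 1 := hμ1
    rw [e1, e2]
    norm_num
  -- a double counting identity, for every set and every symmetric weight
  have key : ∀ (H : Finset (Bool × Ω)) (f : Ω → Ω → ℝ),
      ∑ v ∈ H, ∑ k, (if τ k v ∈ H then (if v.1 then f (τ k v).2 v.2 else f v.2 (τ k v).2) else 0) =
      2 * ∑ k, ∑ ω, (if (false, ω) ∈ H ∧ (true, σ k ω) ∈ H then f ω (σ k ω) else 0) := by
    intro H f
    rw [Finset.sum_comm, Finset.mul_sum]
    refine Finset.sum_congr rfl (fun k _ => ?_)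
    have e0 : ∀ g : Bool × Ω → ℝ, ∑ v ∈ H, g v = ∑ v, if v ∈ H then g v else 0 := by
      intro g
      rw [← Finset.sum_filter]
      congr 1
      ext v
      simp
    rw [e0, Fintype.sum_prod_type, Fintype.sum_bool]
    have e1 : ∑ ω, (if (true, ω) ∈ H then (if τ k (true, ω) ∈ H then
          (if (true, ω).1 then f (τ k (true, ω)).2 (true, ω).2 else
            f (true, ω).2 (τ k (true, ω)).2) else 0) else 0) =
        ∑ ω, (if (false, ω) ∈ H ∧ (true, σ k ω) ∈ H then f ω (σ k ω) else 0) := by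
      rw [← Equiv.sum_comp (σ k)]
      refine Finset.sum_congr rfl (fun ω _ => ?_)
      have a1 : τ k (true, σ k ω) = (false, ω) := by
        simp only [hτ, Bool.not_true, if_true, Equiv.symm_apply_apply]
      rw [a1]
      by_cases b1 : (true, σ k ω) ∈ H
      · by_cases b2 : (false, ω) ∈ H
        · rw [if_pos b1, if_pos b2, if_pos (rfl : (true, σ k ω).1 = true), if_pos ⟨b2, b1⟩]
        · rw [if_pos b1, if_neg b2, if_neg (fun h => b2 h.1)]
      · rw [if_neg b1, if_neg (fun h => b1 h.2)]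
    have e2 : ∑ ω, (if (false, ω) ∈ H then (if τ k (false, ω) ∈ H then
          (if (false, ω).1 then f (τ k (false, ω)).2 (false, ω).2 else
            f (false, ω).2 (τ k (false, ω)).2) else 0) else 0) =
        ∑ ω, (if (false, ω) ∈ H ∧ (true, σ k ω) ∈ H then f ω (σ k ω) else 0) := by
      refine Finset.sum_congr rfl (fun ω _ => ?_)
      have a1 : τ k (false, ω) = (true, σ k ω) := rfl
      rw [a1]
      by_cases b1 : (true, σ k ω) ∈ H
      · by_cases b2 : (false, ω) ∈ H
        · rw [if_pos b2, if_pos b1, if_neg (fun h : (false, ω).1 = true => Bool.noConfusion h),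
            if_pos ⟨b2, b1⟩]
        · rw [if_neg b2, if_neg (fun h => b2 h.1)]
      · rw [if_neg b1, ite_self, if_neg (fun h => b1 h.2)]
    rw [e1, e2]
    ring
  set H : Finset (Bool × Ω) := univ.filter (fun v => η < w v) with hH
  have hHc : H.card ≤ N := by
    have h1 : (H.card : ℝ) * η ≤ ∑ v ∈ H, w v := by
      rw [← nsmul_eq_mul]
      exact Finset.card_nsmul_le_sum H w η (fun v hv => (Finset.mem_filter.1 hv).2.le)
    have h2 : ∑ v ∈ H, w v ≤ ∑ v, w v :=
      Finset.sum_le_sum_of_subset_of_nonneg (Finset.subset_univ _) (fun v _ _ => hw0 v)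
    have h3 : (H.card : ℝ) ≤ N := by
      refine le_trans ?_ hN
      rw [le_div_iff₀ hη]
      linarith
    exact_mod_cast h3
  have hQ' : ∀ H' : Finset (Bool × Ω), H'.card ≤ N →
      (∑ v ∈ H', ∑ k, if τ k v ∈ H' then (1 : ℝ) else 0) ≤ (2 * c) * H'.card := by
    intro H' hH'
    have h1 := key H' (fun _ _ => 1)
    simp only [ite_self] at h1
    rw [h1]
    set H1 : Finset Ω := univ.filter (fun ω => (false, ω) ∈ H') with hH1
    set H2 : Finset Ω := univ.filter (fun ω => (true, ω) ∈ H') with hH2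
    have hcard : (H'.card : ℝ) = H1.card + H2.card := by
      have e0 : (H'.card : ℝ) = ∑ v, if v ∈ H' then (1 : ℝ) else 0 := by
        rw [Finset.sum_boole]
        congr 2
        ext v
        simp
      rw [e0, Fintype.sum_prod_type, Fintype.sum_bool, Finset.sum_boole, Finset.sum_boole]
      ring
    have hcardN : H1.card + H2.card ≤ N := by
      have : H'.card = H1.card + H2.card := by exact_mod_cast hcard
      omega
    have h2 := hQ H1 H2 hcardN
    have h3 : ∀ k, (∑ ω, if (false, ω) ∈ H' ∧ (true, σ k ω) ∈ H' then (1 : ℝ) else 0) =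
        ∑ ω ∈ H1, if σ k ω ∈ H2 then (1 : ℝ) else 0 := by
      intro k
      rw [hH1, Finset.sum_filter]
      refine Finset.sum_congr rfl (fun ω _ => ?_)
      have e1 : (σ k ω ∈ H2) ↔ (true, σ k ω) ∈ H' := by
        rw [hH2, Finset.mem_filter]
        exact ⟨fun h => h.2, fun h => ⟨mem_univ _, h⟩⟩
      by_cases b1 : (true, σ k ω) ∈ H'
      · by_cases b2 : (false, ω) ∈ H'
        · rw [if_pos ⟨b2, b1⟩, if_pos b2, if_pos (e1.2 b1)]
        · rw [if_neg (fun h => b2 h.1), if_neg b2]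
      · rw [if_neg (fun h => b1 h.2), if_neg (fun h => b1 (e1.1 h)), ite_self]
    rw [Finset.sum_congr rfl (fun k _ => h3 k), hcard]
    linarith
  have hf := layer_cake τ (2 * c) N hQ' H hHc w hw0
  set S : ℝ := ∑ k, ∑ ω, if η < μ ω ∧ η < ν (σ k ω) then min (μ ω) (ν (σ k ω)) else 0 with hS
  have hmemH : ∀ v, v ∈ H ↔ η < w v := fun v => by
    rw [hH, Finset.mem_filter]
    exact ⟨fun h => h.2, fun h => ⟨mem_univ _, h⟩⟩
  have hleft : ∑ v ∈ H, ∑ k, (if τ k v ∈ H then min (w v) (w (τ k v)) else 0) = 2 * S := by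
    have h1 := key H (fun a b => min (μ a) (ν b))
    have h2 : ∑ v ∈ H, ∑ k, (if τ k v ∈ H then min (w v) (w (τ k v)) else 0) =
        ∑ v ∈ H, ∑ k, (if τ k v ∈ H then (if v.1 then min (μ (τ k v).2) (ν v.2) else
          min (μ v.2) (ν (τ k v).2)) else 0) := by
      refine Finset.sum_congr rfl (fun v _ => Finset.sum_congr rfl (fun k _ => ?_))
      obtain ⟨b, ω⟩ := v
      cases b
      · rfl
      · have e1 : min (w (true, ω)) (w (τ k (true, ω))) =
            min (μ (τ k (true, ω)).2) (ν (true, ω).2) := min_comm _ _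
        rw [e1]
        rfl
    rw [h2, h1, hS]
    congr 1
    refine Finset.sum_congr rfl (fun k _ => Finset.sum_congr rfl (fun ω _ => ?_))
    have e1 : ((false, ω) ∈ H ∧ (true, σ k ω) ∈ H) ↔ (η < μ ω ∧ η < ν (σ k ω)) := by
      rw [hmemH, hmemH]
      exact Iff.rfl
    by_cases b : η < μ ω ∧ η < ν (σ k ω)
    · rw [if_pos b, if_pos (e1.2 b)]
    · rw [if_neg b, if_neg (fun h => b (e1.1 h))]
  have hright : ∑ v ∈ H, w v ≤ 2 := by
    rw [← hwsum]
    exact Finset.sum_le_sum_of_subset_of_nonneg (Finset.subset_univ _) (fun v _ _ => hw0 v)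
  rw [hleft] at hf
  rw [Fintype.expect_eq_sum_div_card, Fintype.card_fin]
  have hdp : (0 : ℝ) < d := by exact_mod_cast hd
  rw [div_le_div_iff_of_pos_right hdp]
  nlinarith

end Pool.Agent.P325f1f.Amen
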