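import Mathlib
import Pool.Agent.Lib.P325f1f.Dich.Games
import Pool.Agent.Lib.P325f1f.Amen.Layer
import Pool.Agent.Lib.P325f1f.Amen.Iso
import Pool.Agent.Lib.P325f1f.Amen.Rounds

/-!
# Long words in a non-amenable group

Isoperimetry of small sets gives a spectral gap for functions of small support, so that long words
move every small set almost entirely away from every other small set.
-/

open Finset
open scoped BigOperators

namespace Pool.Agent.P325f1f.Amen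

open Pool.Agent.P325f1f.Dich

section

variable {Γ Ω : Type} [Group Γ] [MulAction Γ Ω] [DecidableEq Ω] [Fintype Ω] {d : ℕ}
  (s : Fin d → Γ)

/-- The support of a function. -/
noncomputable def spt (f : Ω → ℝ) : Finset Ω := by
  classical
  exact univ.filter (fun ω => f ω ≠ 0)

omit [DecidableEq Ω] in
theorem mem_spt (f : Ω → ℝ) (ω : Ω) : ω ∈ spt f ↔ f ω ≠ 0 := by
  classical
  unfold spt
  rw [Finset.mem_filter]
  exact ⟨fun h => h.2, fun h => ⟨mem_univ _, h⟩⟩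

/-- Cheeger's inequality for functions of small support. -/
theorem cheeger (η : ℝ) (hη : 0 < η) (N : ℕ)
    (hH : ∀ H : Finset Ω, H.card ≤ N →
      (∑ k, ∑ ω ∈ H, if s k • ω ∈ H then (1 : ℝ) else 0) ≤ ((d : ℝ) - η) * H.card)
    (hd : 0 < d) (f : Ω → ℝ) (hf : ∀ ω, 0 ≤ f ω) (hN : (spt f).card ≤ N) :
    ∑ k, ∑ ω, f ω * f (s k • ω) ≤ ((d : ℝ) - η ^ 2 / (2 * d)) * ∑ ω, f ω ^ 2 := by
  have hdr : (0 : ℝ) < d := by exact_mod_cast hd
  set S : ℝ := ∑ ω, f ω ^ 2 with hS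
  have hshift : ∀ k, ∑ ω, f (s k • ω) ^ 2 = S := fun k =>
    Equiv.sum_comp (MulAction.toPerm (s k)) (fun ω => f ω ^ 2)
  -- the layer cake
  have h1 : ∑ k, ∑ ω, min (f ω ^ 2) (f (s k • ω) ^ 2) ≤ ((d : ℝ) - η) * S := by
    have h2 := layer_cake (fun (k : Fin d) ω => s k • ω) ((d : ℝ) - η) N
      (fun H hHN => by
        rw [Finset.sum_comm]
        exact hH H hHN) (spt f) hN (fun ω => f ω ^ 2) (fun ω => sq_nonneg _)
    have h3 : ∑ ω ∈ spt f, f ω ^ 2 = S := by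
      rw [hS]
      refine Finset.sum_subset (Finset.subset_univ _) (fun ω _ hω => ?_)
      rw [mem_spt, not_not] at hω
      rw [hω]
      norm_num
    have h4 : ∑ ω ∈ spt f, ∑ k, (if s k • ω ∈ spt f then min (f ω ^ 2) (f (s k • ω) ^ 2)
        else 0) = ∑ k, ∑ ω, min (f ω ^ 2) (f (s k • ω) ^ 2) := by
      rw [Finset.sum_comm]
      refine Finset.sum_congr rfl (fun k _ => ?_)
      have h5 : ∀ ω, min (f ω ^ 2) (f (s k • ω) ^ 2) =
          if ω ∈ spt f then (if s k • ω ∈ spt f then min (f ω ^ 2) (f (s k • ω) ^ 2) else 0)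
            else 0 := by
        intro ω
        by_cases a : f ω = 0
        · rw [if_neg (by rw [mem_spt, not_not]; exact a), a, zero_pow two_ne_zero]
          exact min_eq_left (sq_nonneg _)
        · rw [if_pos ((mem_spt f ω).2 a)]
          by_cases b : f (s k • ω) = 0
          · rw [if_neg (by rw [mem_spt, not_not]; exact b), b, zero_pow two_ne_zero]
            exact min_eq_right (sq_nonneg _)
          · rw [if_pos ((mem_spt f _).2 b)]
      rw [Finset.sum_congr rfl (fun ω _ => h5 ω), Finset.sum_ite_mem, Finset.univ_inter]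
    rw [h3] at h2
    rw [← h4]
    exact h2
  -- pointwise
  set β : ℝ := η / (2 * d) with hβ
  have hβ0 : 0 < β := by positivity
  have hpt : ∀ x y : ℝ, 0 ≤ x → 0 ≤ y → x ^ 2 + y ^ 2 - 2 * min (x ^ 2) (y ^ 2) ≤
      (x - y) ^ 2 / (2 * β) + β / 2 * (x + y) ^ 2 := by
    have key : ∀ x y : ℝ, 0 ≤ x → x ≤ y → x ^ 2 + y ^ 2 - 2 * min (x ^ 2) (y ^ 2) ≤
      (x - y) ^ 2 / (2 * β) + β / 2 * (x + y) ^ 2 := by
      intro x y hx hxy
      have e1 : min (x ^ 2) (y ^ 2) = x ^ 2 := min_eq_left (by nlinarith)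
      rw [e1]
      have e2 : (x - y) ^ 2 / (2 * β) + β / 2 * (x + y) ^ 2 - (y ^ 2 - x ^ 2) =
          ((y - x) - β * (x + y)) ^ 2 / (2 * β) := by
        field_simp
        ring
      have e3 : 0 ≤ ((y - x) - β * (x + y)) ^ 2 / (2 * β) := by positivity
      linarith
    intro x y hx hy
    rcases le_total x y with h | h
    · exact key x y hx h
    · have := key y x hy h
      rw [min_comm, add_comm (y ^ 2), add_comm y x] at this
      have e4 : (y - x) ^ 2 = (x - y) ^ 2 := by ring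
      rw [e4] at this
      exact this
  have h6 : ∑ k, ∑ ω, (f ω ^ 2 + f (s k • ω) ^ 2 - 2 * min (f ω ^ 2) (f (s k • ω) ^ 2)) ≤
      ∑ k, ∑ ω, ((f ω - f (s k • ω)) ^ 2 / (2 * β) + β / 2 * (f ω + f (s k • ω)) ^ 2) :=
    Finset.sum_le_sum (fun k _ => Finset.sum_le_sum (fun ω _ => hpt _ _ (hf _) (hf _)))
  set X : ℝ := ∑ k, ∑ ω, f ω * f (s k • ω) with hX
  have h7 : ∑ k, ∑ ω, (f ω ^ 2 + f (s k • ω) ^ 2 - 2 * min (f ω ^ 2) (f (s k • ω) ^ 2)) =
      2 * d * S - 2 * ∑ k, ∑ ω, min (f ω ^ 2) (f (s k • ω) ^ 2) := by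
    simp only [Finset.sum_sub_distrib, Finset.sum_add_distrib, ← Finset.mul_sum, hshift,
      Finset.sum_const, Finset.card_univ, Fintype.card_fin, nsmul_eq_mul, ← hS]
    ring
  have h8 : ∑ k, ∑ ω, ((f ω - f (s k • ω)) ^ 2 / (2 * β) + β / 2 * (f ω + f (s k • ω)) ^ 2) =
      (2 * d * S - 2 * X) / (2 * β) + β / 2 * (2 * d * S + 2 * X) := by
    have e1 : ∀ k, ∑ ω, (f ω - f (s k • ω)) ^ 2 = 2 * S - 2 * ∑ ω, f ω * f (s k • ω) := by
      intro k
      have e2 : ∀ ω, (f ω - f (s k • ω)) ^ 2 = f ω ^ 2 + f (s k • ω) ^ 2 -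
          2 * (f ω * f (s k • ω)) := fun ω => by ring
      rw [Finset.sum_congr rfl (fun ω _ => e2 ω), Finset.sum_sub_distrib,
        Finset.sum_add_distrib, hshift, ← Finset.mul_sum]
      ring
    have e3 : ∀ k, ∑ ω, (f ω + f (s k • ω)) ^ 2 = 2 * S + 2 * ∑ ω, f ω * f (s k • ω) := by
      intro k
      have e2 : ∀ ω, (f ω + f (s k • ω)) ^ 2 = f ω ^ 2 + f (s k • ω) ^ 2 +
          2 * (f ω * f (s k • ω)) := fun ω => by ring
      rw [Finset.sum_congr rfl (fun ω _ => e2 ω), Finset.sum_add_distrib,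
        Finset.sum_add_distrib, hshift, ← Finset.mul_sum]
      ring
    simp only [Finset.sum_add_distrib, ← Finset.sum_div, ← Finset.mul_sum, e1, e3,
      Finset.sum_sub_distrib, Finset.sum_const, Finset.card_univ, Fintype.card_fin,
      nsmul_eq_mul]
    rw [← hX]
    ring
  rw [h7, h8] at h6
  have hXS : X ≤ d * S := by
    have e1 : ∀ k, ∑ ω, f ω * f (s k • ω) ≤ S := by
      intro k
      have e2 : ∀ ω, f ω * f (s k • ω) ≤ (f ω ^ 2 + f (s k • ω) ^ 2) / 2 := fun ω => by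
        nlinarith [sq_nonneg (f ω - f (s k • ω))]
      refine (Finset.sum_le_sum (fun ω _ => e2 ω)).trans (le_of_eq ?_)
      rw [← Finset.sum_div, Finset.sum_add_distrib, hshift]
      ring
    refine (Finset.sum_le_sum (fun k _ => e1 k)).trans (le_of_eq ?_)
    rw [Finset.sum_const, Finset.card_univ, Fintype.card_fin, nsmul_eq_mul]
  have hS0 : 0 ≤ S := Finset.sum_nonneg (fun ω _ => sq_nonneg _)
  have h9 : 2 * η * S ≤ (2 * d * S - 2 * X) / (2 * β) + β / 2 * (4 * d * S) := by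
    have e1 : β / 2 * (2 * d * S + 2 * X) ≤ β / 2 * (4 * d * S) :=
      mul_le_mul_of_nonneg_left (by linarith) (by positivity)
    nlinarith
  have h10 : β / 2 * (4 * d * S) = η * S := by
    rw [hβ]
    field_simp
    ring
  have h11 : η * S ≤ (2 * d * S - 2 * X) / (2 * β) := by linarith
  rw [le_div_iff₀ (by positivity)] at h11
  have h12 : η * S * (2 * β) = η ^ 2 / d * S := by
    rw [hβ]
    field_simp
  rw [h12] at h11
  have h13 : ((d : ℝ) - η ^ 2 / (2 * d)) * S = d * S - (η ^ 2 / d * S) / 2 := by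
    field_simp
  rw [h13]
  linarith

/-- The average over the types contracts functions of small support. -/
theorem contract (k0 : Fin d) (hk0 : s k0 = 1) (η : ℝ) (hη : 0 < η) (N : ℕ)
    (hH : ∀ H : Finset Ω, H.card ≤ N →
      (∑ k, ∑ ω ∈ H, if s k • ω ∈ H then (1 : ℝ) else 0) ≤ ((d : ℝ) - η) * H.card)
    (f : Ω → ℝ) (hf : ∀ ω, 0 ≤ f ω) (hN : (spt f).card ≤ N) :
    ∑ ω, (∑ k, f (s k • ω)) ^ 2 ≤ ((d : ℝ) ^ 2 - η ^ 2 / (2 * d)) * ∑ ω, f ω ^ 2 := by
  have hd : 0 < d := lt_of_le_of_lt (Nat.zero_le _) k0.2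
  have h1 := cheeger s η hη N hH hd f hf hN
  set S : ℝ := ∑ ω, f ω ^ 2 with hS
  have hshift : ∀ k, ∑ ω, f (s k • ω) ^ 2 = S := fun k =>
    Equiv.sum_comp (MulAction.toPerm (s k)) (fun ω => f ω ^ 2)
  have h2 : ∑ ω, (∑ k, f (s k • ω)) ^ 2 =
      ∑ k, ∑ l, ∑ ω, f (s k • ω) * f (s l • ω) := by
    have e1 : ∀ ω, (∑ k, f (s k • ω)) ^ 2 = ∑ k, ∑ l, f (s k • ω) * f (s l • ω) := by
      intro ω
      rw [pow_two, Finset.sum_mul_sum]
    rw [Finset.sum_congr rfl (fun ω _ => e1 ω), Finset.sum_comm]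
    refine Finset.sum_congr rfl (fun k _ => ?_)
    rw [Finset.sum_comm]
  rw [h2, ← Finset.add_sum_erase univ _ (mem_univ k0)]
  have h3 : ∑ l, ∑ ω, f (s k0 • ω) * f (s l • ω) ≤ ((d : ℝ) - η ^ 2 / (2 * d)) * S := by
    simp only [hk0, one_smul]
    exact h1
  have h4 : ∑ k ∈ univ.erase k0, ∑ l, ∑ ω, f (s k • ω) * f (s l • ω) ≤
      ((d : ℝ) - 1) * (d * S) := by
    have e1 : ∀ k l, ∑ ω, f (s k • ω) * f (s l • ω) ≤ S := by
      intro k l
      have e2 : ∀ ω, f (s k • ω) * f (s l • ω) ≤ (f (s k • ω) ^ 2 + f (s l • ω) ^ 2) / 2 :=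
        fun ω => by nlinarith [sq_nonneg (f (s k • ω) - f (s l • ω))]
      refine (Finset.sum_le_sum (fun ω _ => e2 ω)).trans (le_of_eq ?_)
      rw [← Finset.sum_div, Finset.sum_add_distrib, hshift, hshift]
      ring
    refine (Finset.sum_le_sum (g := fun _ => (d : ℝ) * S) (fun k _ => ?_)).trans (le_of_eq ?_)
    · refine (Finset.sum_le_sum (fun l _ => e1 k l)).trans (le_of_eq ?_)
      rw [Finset.sum_const, Finset.card_univ, Fintype.card_fin, nsmul_eq_mul]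
    · rw [Finset.sum_const, Finset.card_erase_of_mem (mem_univ k0), Finset.card_univ,
        Fintype.card_fin, nsmul_eq_mul, Nat.cast_sub hd, Nat.cast_one]
  nlinarith

/-- The product of a word. -/
def wprod (s : Fin d → Γ) : (n : ℕ) → (Fin n → Fin d) → Γ
  | 0, _ => 1
  | n + 1, w => wprod s n (fun i => w i.succ) * s (w 0)

/-- The sum of the translates by all words of a given length. -/
def gsum (n : ℕ) (f : Ω → ℝ) (ω : Ω) : ℝ := ∑ w : Fin n → Fin d, f (wprod s n w • ω)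

omit [DecidableEq Ω] [Fintype Ω] in
theorem gsum_succ (n : ℕ) (f : Ω → ℝ) (ω : Ω) :
    gsum s (n + 1) f ω = ∑ k, gsum s n f (s k • ω) := by
  have h1 : ∀ g : (Fin (n + 1) → Fin d) → ℝ, ∑ w, g w =
      ∑ k : Fin d, ∑ w : Fin n → Fin d, g (Fin.cons k w) := by
    intro g
    rw [← Fintype.sum_prod_type' (fun (k : Fin d) (w : Fin n → Fin d) => g (Fin.cons k w))]
    exact (Fintype.sum_equiv (Fin.consEquiv (fun _ => Fin d)) _ _ (fun p => rfl)).symm
  rw [gsum, h1]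
  refine Finset.sum_congr rfl (fun k _ => ?_)
  rw [gsum]
  refine Finset.sum_congr rfl (fun w _ => ?_)
  rw [wprod]
  simp only [Fin.cons_zero, Fin.cons_succ, mul_smul]

omit [DecidableEq Ω] [Fintype Ω] in
theorem gsum_nonneg (n : ℕ) (f : Ω → ℝ) (hf : ∀ ω, 0 ≤ f ω) (ω : Ω) : 0 ≤ gsum s n f ω :=
  Finset.sum_nonneg (fun _ _ => hf _)

theorem spt_gsum (n : ℕ) (f : Ω → ℝ) :
    (spt (gsum s n f)).card ≤ d ^ n * (spt f).card := by
  induction n with
  | zero =>
    have h1 : gsum s 0 f = f := by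
      funext ω
      rw [gsum]
      simp [wprod]
    rw [h1, pow_zero, one_mul]
  | succ n ih =>
    have h1 : spt (gsum s (n + 1) f) ⊆
        univ.biUnion (fun k => (spt (gsum s n f)).image (fun ω => (s k)⁻¹ • ω)) := by
      intro ω hω
      rw [mem_spt, gsum_succ] at hω
      obtain ⟨k, _, hk⟩ := Finset.exists_ne_zero_of_sum_ne_zero hω
      rw [Finset.mem_biUnion]
      refine ⟨k, mem_univ _, Finset.mem_image.2 ⟨s k • ω, (mem_spt _ _).2 hk, ?_⟩⟩
      rw [inv_smul_smul]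
    refine (Finset.card_le_card h1).trans (Finset.card_biUnion_le.trans ?_)
    refine (Finset.sum_le_sum (g := fun _ => d ^ n * (spt f).card)
      (fun k _ => Finset.card_image_le.trans ih)).trans (le_of_eq ?_)
    rw [Finset.sum_const, Finset.card_univ, Fintype.card_fin, smul_eq_mul, pow_succ]
    ring

theorem gsum_sq (k0 : Fin d) (hk0 : s k0 = 1) (η : ℝ) (hη : 0 < η) (N : ℕ)
    (hH : ∀ H : Finset Ω, H.card ≤ N →
      (∑ k, ∑ ω ∈ H, if s k • ω ∈ H then (1 : ℝ) else 0) ≤ ((d : ℝ) - η) * H.card)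
    (hq : 0 ≤ (d : ℝ) ^ 2 - η ^ 2 / (2 * d))
    (f : Ω → ℝ) (hf : ∀ ω, 0 ≤ f ω) (n : ℕ) (hN : d ^ n * (spt f).card ≤ N) :
    ∑ ω, gsum s n f ω ^ 2 ≤ ((d : ℝ) ^ 2 - η ^ 2 / (2 * d)) ^ n * ∑ ω, f ω ^ 2 := by
  have hd : 0 < d := lt_of_le_of_lt (Nat.zero_le _) k0.2
  induction n with
  | zero =>
    rw [pow_zero, one_mul]
    refine le_of_eq (Finset.sum_congr rfl (fun ω _ => ?_))
    rw [gsum]
    simp [wprod]
  | succ n ih =>
    have h0 : d ^ n * (spt f).card ≤ N := by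
      refine le_trans (Nat.mul_le_mul_right _ ?_) hN
      exact Nat.pow_le_pow_right hd (Nat.le_succ n)
    have h1 := contract s k0 hk0 η hη N hH (gsum s n f) (gsum_nonneg s n f hf)
      ((spt_gsum s n f).trans h0)
    have h2 : ∑ ω, gsum s (n + 1) f ω ^ 2 = ∑ ω, (∑ k, gsum s n f (s k • ω)) ^ 2 :=
      Finset.sum_congr rfl (fun ω _ => by rw [gsum_succ])
    rw [h2, pow_succ]
    refine h1.trans ?_
    rw [mul_comm (((d : ℝ) ^ 2 - η ^ 2 / (2 * d)) ^ n), mul_assoc]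
    exact mul_le_mul_of_nonneg_left (ih h0) hq

/-- The acceptance of two distributions on their heavy labels, for long words. -/
theorem min_words (k0 : Fin d) (hk0 : s k0 = 1) (η : ℝ) (hη : 0 < η) (N : ℕ)
    (hH : ∀ H : Finset Ω, H.card ≤ N →
      (∑ k, ∑ ω ∈ H, if s k • ω ∈ H then (1 : ℝ) else 0) ≤ ((d : ℝ) - η) * H.card)
    (hq : 0 ≤ (d : ℝ) ^ 2 - η ^ 2 / (2 * d)) (n : ℕ) (x : ℝ) (hx : 0 < x)
    (hN : (d : ℝ) ^ n * (1 / x) ≤ N) (δ : ℝ) (hδ : 0 ≤ δ)
    (hn : (1 - η ^ 2 / (2 * (d : ℝ) ^ 3)) ^ n ≤ δ ^ 2)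
    (μ ν : Ω → ℝ) (hμ : ∀ ω, 0 ≤ μ ω) (hν : ∀ ω, 0 ≤ ν ω) (hμ1 : ∑ ω, μ ω = 1)
    (hν1 : ∑ ω, ν ω = 1) :
    (𝔼 w : Fin n → Fin d, ∑ ω, if x < μ ω ∧ x < ν (wprod s n w • ω) then
      min (μ ω) (ν (wprod s n w • ω)) else 0) ≤ δ := by
  have hd : 0 < d := lt_of_le_of_lt (Nat.zero_le _) k0.2
  have hdr : (0 : ℝ) < d := by exact_mod_cast hd
  set u : Ω → ℝ := fun ω => if x < μ ω then √(μ ω) else 0 with hu
  set v : Ω → ℝ := fun ω => if x < ν ω then √(ν ω) else 0 with hv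
  have hu0 : ∀ ω, 0 ≤ u ω := by
    intro ω
    simp only [hu]
    split_ifs
    · exact Real.sqrt_nonneg _
    · exact le_rfl
  have hv0 : ∀ ω, 0 ≤ v ω := by
    intro ω
    simp only [hv]
    split_ifs
    · exact Real.sqrt_nonneg _
    · exact le_rfl
  have hu1 : ∑ ω, u ω ^ 2 ≤ 1 := by
    rw [← hμ1]
    refine Finset.sum_le_sum (fun ω _ => ?_)
    simp only [hu]
    split_ifs
    · rw [Real.sq_sqrt (hμ ω)]
    · simpa using hμ ω
  have hv1 : ∑ ω, v ω ^ 2 ≤ 1 := by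
    rw [← hν1]
    refine Finset.sum_le_sum (fun ω _ => ?_)
    simp only [hv]
    split_ifs
    · rw [Real.sq_sqrt (hν ω)]
    · simpa using hν ω
  -- the support of `v`
  have hsv : ((spt v).card : ℝ) ≤ 1 / x := by
    rw [le_div_iff₀ hx]
    have h1 : ((spt v).card : ℝ) * x ≤ ∑ ω ∈ spt v, ν ω := by
      rw [← nsmul_eq_mul]
      refine Finset.card_nsmul_le_sum _ _ _ (fun ω hω => ?_)
      rw [mem_spt] at hω
      by_contra hcon
      apply hω
      simp only [hv]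
      rw [if_neg (fun h => hcon h.le)]
    refine h1.trans ?_
    rw [← hν1]
    exact Finset.sum_le_sum_of_subset_of_nonneg (Finset.subset_univ _) (fun ω _ _ => hν ω)
  have hcard : d ^ n * (spt v).card ≤ N := by
    have h1 : ((d ^ n * (spt v).card : ℕ) : ℝ) ≤ N := by
      push_cast
      refine le_trans ?_ hN
      exact mul_le_mul_of_nonneg_left hsv (by positivity)
    exact_mod_cast h1
  have hG := gsum_sq s k0 hk0 η hη N hH hq v hv0 n hcard
  -- the acceptance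
  have h1 : (𝔼 w : Fin n → Fin d, ∑ ω, if x < μ ω ∧ x < ν (wprod s n w • ω) then
      min (μ ω) (ν (wprod s n w • ω)) else 0) ≤ (∑ ω, u ω * gsum s n v ω) / (d : ℝ) ^ n := by
    have e1 : ∀ (w : Fin n → Fin d) ω, (if x < μ ω ∧ x < ν (wprod s n w • ω) then
        min (μ ω) (ν (wprod s n w • ω)) else 0) ≤ u ω * v (wprod s n w • ω) := by
      intro w ω
      by_cases h : x < μ ω ∧ x < ν (wprod s n w • ω)
      · rw [if_pos h]
        simp only [hu, hv]
        rw [if_pos h.1, if_pos h.2]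
        set p := μ ω with hp
        set q := ν (wprod s n w • ω) with hq'
        have hp0 : 0 ≤ p := hμ ω
        have hq0 : 0 ≤ q := hν _
        have e2 : min p q ≤ √p * √q := by
          rw [← Real.sqrt_mul hp0]
          refine Real.le_sqrt_of_sq_le ?_
          have e3 := min_le_left p q
          have e4 := min_le_right p q
          have e5 : 0 ≤ min p q := le_min hp0 hq0
          rw [pow_two]
          exact mul_le_mul e3 e4 e5 hp0
        exact e2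
      · rw [if_neg h]
        exact mul_nonneg (hu0 _) (hv0 _)
    refine (Finset.expect_le_expect (fun w _ => Finset.sum_le_sum (fun ω _ => e1 w ω))).trans
      (le_of_eq ?_)
    rw [Fintype.expect_eq_sum_div_card, Fintype.card_fun, Fintype.card_fin, Fintype.card_fin,
      Finset.sum_comm]
    push_cast
    congr 1
    refine Finset.sum_congr rfl (fun ω _ => ?_)
    rw [gsum, Finset.mul_sum]
  refine h1.trans ?_
  have hX0 : 0 ≤ (∑ ω, u ω * gsum s n v ω) / (d : ℝ) ^ n :=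
    div_nonneg (Finset.sum_nonneg (fun ω _ => mul_nonneg (hu0 _) (gsum_nonneg s n v hv0 _)))
      (by positivity)
  refine abs_le_of_sq_le_sq' ?_ hδ |>.2
  rw [div_pow]
  have h2 : (∑ ω, u ω * gsum s n v ω) ^ 2 ≤ (∑ ω, u ω ^ 2) * ∑ ω, gsum s n v ω ^ 2 :=
    Finset.sum_mul_sq_le_sq_mul_sq _ _ _
  have h3 : (∑ ω, u ω ^ 2) * ∑ ω, gsum s n v ω ^ 2 ≤
      1 * (((d : ℝ) ^ 2 - η ^ 2 / (2 * d)) ^ n * 1) := by
    refine mul_le_mul hu1 (hG.trans ?_) (Finset.sum_nonneg (fun _ _ => sq_nonneg _)) zero_le_one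
    exact mul_le_mul_of_nonneg_left hv1 (pow_nonneg hq n)
  have h4 : ((d : ℝ) ^ 2 - η ^ 2 / (2 * d)) ^ n =
      (1 - η ^ 2 / (2 * (d : ℝ) ^ 3)) ^ n * ((d : ℝ) ^ n) ^ 2 := by
    have e1 : (d : ℝ) ^ 2 - η ^ 2 / (2 * d) = (1 - η ^ 2 / (2 * (d : ℝ) ^ 3)) * (d : ℝ) ^ 2 := by
      field_simp
    rw [e1, mul_pow, ← pow_mul, ← pow_mul, mul_comm 2 n]
  rw [div_le_iff₀ (by positivity)]
  refine (h2.trans h3).trans ?_
  rw [one_mul, mul_one, h4]
  exact mul_le_mul_of_nonneg_right hn (by positivity)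

end

end Pool.Agent.P325f1f.Amen
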