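import Mathlib
import Pool.Agent.Lib.P325f1f.Dich.Games
import Pool.Agent.Lib.P325f1f.Amen.Kesten

/-!
# Hardness for the constraint permutations of a non-amenable residually finite group
-/

open Finset
open scoped BigOperators

namespace Pool.Agent.P325f1f.Amen

open Pool.Agent.P325f1f.Dich

section

variable {Γ : Type} [Group Γ] {d : ℕ}

/-- The isoperimetric inequality. -/
theorem exists_eta (s : Fin d → Γ) (hd1 : 1 ≤ d) (hs : ¬ Folner s) : ∃ η : ℝ, 0 < η ∧ η ≤ 1 ∧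
    ∀ F : Finset Γ, F.Nonempty → ∀ _ : DecidableEq Γ,
      (∑ k, ∑ g ∈ F, if s k * g ∈ F then (1 : ℝ) else 0) ≤ ((d : ℝ) - η) * F.card := by
  classical
  obtain ⟨η, hη0, hF⟩ : ∃ η : ℝ, 0 < η ∧ ∀ F : Finset Γ, F.Nonempty →
      ∃ k, ((F.filter (fun g => s k * g ∈ F)).card : ℝ) < (1 - η) * (F.card : ℝ) := by
    by_contra hcon
    push Not at hcon
    apply hs
    intro η hη
    obtain ⟨F, hF, h⟩ := hcon η hη
    refine ⟨F, hF, fun k => ?_⟩
    convert h k
  refine ⟨η, hη0, ?_, ?_⟩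
  · obtain ⟨k, hk⟩ := hF {1} (Finset.singleton_nonempty _)
    rw [Finset.card_singleton, Nat.cast_one, mul_one] at hk
    have : (0 : ℝ) ≤ ((({1} : Finset Γ).filter (fun g => s k * g ∈ ({1} : Finset Γ))).card : ℝ) :=
      Nat.cast_nonneg _
    linarith
  · intro F hFne dΓ
    obtain ⟨k, hk⟩ := hF F hFne
    rw [← Finset.add_sum_erase univ _ (mem_univ k)]
    have e1 : (∑ g ∈ F, if s k * g ∈ F then (1 : ℝ) else 0) ≤ (1 - η) * F.card := by
      rw [Finset.sum_boole]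
      refine le_trans (le_of_eq ?_) hk.le
      congr!
    have e2 : (∑ x ∈ univ.erase k, ∑ g ∈ F, if s x * g ∈ F then (1 : ℝ) else 0) ≤
        (d - 1) * F.card := by
      refine (Finset.sum_le_sum (g := fun _ => (F.card : ℝ)) (fun x _ => ?_)).trans
        (le_of_eq ?_)
      · refine (Finset.sum_le_sum (g := fun _ => (1 : ℝ)) (fun ω _ => ?_)).trans (le_of_eq ?_)
        · split_ifs <;> norm_num
        · rw [Finset.sum_const, nsmul_eq_mul, mul_one]
      · rw [Finset.sum_const, Finset.card_erase_of_mem (mem_univ k), Finset.card_univ,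
          Fintype.card_fin, nsmul_eq_mul, Nat.cast_sub hd1, Nat.cast_one]
    linarith

/-- Hardness for the types of a non-amenable group. -/
theorem hard (hres : ResFinite Γ) (hna : ¬ Amenable Γ) (δ : ℝ) (hδ : 0 < δ) :
    ∃ (r : ℕ) (g : Fin r → Γ), ∀ (t : ℕ), 1 ≤ t →
      ∃ (Ω : Type) (_ : Fintype Ω) (_ : Nonempty Ω) (_ : MulAction Γ Ω) (M : ℝ),
        ∀ (U W Λ ι : Type) [Fintype Λ] [DecidableEq Λ] [Nonempty Λ] [Fintype ι] [Nonempty ι]
          (I : Game U W Λ ι),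
          (∀ p, ∃ k, (longGame t (fun k => (MulAction.toPerm (g k) : Equiv.Perm Ω)) I).perm p =
            MulAction.toPerm (g k)) ∧
          (1 - 1 / (t : ℝ)) * I.value ≤
            (longGame t (fun k => (MulAction.toPerm (g k) : Equiv.Perm Ω)) I).value ∧
          (longGame t (fun k => (MulAction.toPerm (g k) : Equiv.Perm Ω)) I).value ≤
            δ + M * I.value := by
  classical
  obtain ⟨d0, s0, hs0⟩ : ∃ (d0 : ℕ) (s0 : Fin d0 → Γ), ¬ Folner s0 := by
    by_contra hcon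
    push Not at hcon
    exact hna hcon
  set d := d0 + 1 with hd
  set s : Fin d → Γ := Fin.cons 1 s0 with hs
  have hk0 : s 0 = 1 := rfl
  have hns : ¬ Folner s := by
    intro h
    apply hs0
    intro η hη
    obtain ⟨F, hF, h1⟩ := h η hη
    refine ⟨F, hF, fun k => ?_⟩
    have h2 := h1 k.succ
    exact h2
  have hd1 : 1 ≤ d := Nat.succ_le_succ (Nat.zero_le _)
  have hdr : (1 : ℝ) ≤ d := by exact_mod_cast hd1
  have hd0 : (0 : ℝ) < d := by linarith
  obtain ⟨η, hη0, hη1, hiso⟩ := exists_eta s hd1 hns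
  have hq : 0 ≤ (d : ℝ) ^ 2 - η ^ 2 / (2 * d) := by
    have e1 : η ^ 2 / (2 * d) ≤ 1 := by
      rw [div_le_one (by positivity)]
      nlinarith
    nlinarith
  obtain ⟨n, hn⟩ : ∃ n : ℕ, (1 - η ^ 2 / (2 * (d : ℝ) ^ 3)) ^ n < (δ / 2) ^ 2 := by
    refine exists_pow_lt_of_lt_one (by positivity) ?_
    have : 0 < η ^ 2 / (2 * (d : ℝ) ^ 3) := by positivity
    linarith
  refine ⟨d ^ n, fun i => wprod s n (finFunctionFinEquiv.symm i), ?_⟩
  intro t ht
  set θ : ℝ := min (δ / 10) 1 with hθ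
  have hθ0 : 0 < θ := lt_min (by positivity) one_pos
  have hθ1 : θ ≤ 1 := min_le_right _ _
  have hθ5 : 5 * θ ≤ δ / 2 := by
    have := min_le_left (δ / 10) 1
    linarith
  set x : ℝ := (θ ^ 2) ^ (4 * t) with hx
  have hx0 : 0 < x := by positivity
  obtain ⟨Ω, fΩ, nΩ, mΩ, hΩ⟩ := exists_iso s hres ((d : ℝ) - η) hiso ⌈(d : ℝ) ^ n * (1 / x)⌉₊
  have hne : Nonempty (Fin (d ^ n)) := ⟨⟨0, Nat.pow_pos hd1⟩⟩
  obtain ⟨M, hM⟩ := sound_gen (fun i : Fin (d ^ n) =>
    (MulAction.toPerm (wprod s n (finFunctionFinEquiv.symm i)) : Equiv.Perm Ω)) t ht θ hθ0 hθ1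
    (δ / 2) (by positivity)
    (fun μ ν hμ hν hμ1 hν1 => by
      have h1 := min_words s 0 hk0 η hη0 _ (fun H hH => hΩ inferInstance H hH) hq n x hx0
        (Nat.le_ceil _) (δ / 2) (by positivity) hn.le μ ν hμ hν hμ1 hν1
      refine le_trans (le_of_eq ?_) h1
      exact Fintype.expect_equiv finFunctionFinEquiv.symm _ _ (fun i => rfl))
  refine ⟨Ω, fΩ, nΩ, mΩ, M, ?_⟩
  intro U W Λ ι _ _ _ _ _ I
  refine ⟨fun p => ⟨p.2.1, rfl⟩, complete t ht _ I, ?_⟩
  have h4 := hM U W Λ ι I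
  linarith

end

end Pool.Agent.P325f1f.Amen
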