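import Mathlib
import Pool.Agent.Lib.P325f1f.Amen.Hard
import Pool.Agent.Lib.P325f1f.Amen.Easy

/-!
# Unique games with the constraint permutations of a group: amenable against non-amenable

The definitions `Game`, `Game.satFrac`, `Game.value`, `mix`, `longGame` are in
`Pool/Agent/Lib/P325f1f/Dich/GameDefs.lean`, and `Folner`, `Amenable`, `ResFinite`, `nsq`, `IsSys`
are in `Pool/Agent/Lib/P325f1f/Amen/Defs.lean`.
-/

open Finset
open scoped BigOperators

namespace Pool.Agent.P325f1f.Amen.Reserve

open Pool.Agent.P325f1f.Dich Pool.Agent.P325f1f.Amen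

/-- Consider unique games over finite sets with an action of a group `Γ`, the constraint permutations
being the actions of finitely many fixed elements of `Γ`. If `Γ` is amenable, then semidefinite value
close to one forces value close to one, whatever the size of the label set. If `Γ` is residually
finite and not amenable, then these games are as hard as all unique games: for every `δ` there are
finitely many elements of `Γ` such that soundness `δ` is reached for every completeness. -/
theorem result {Γ : Type} [Group Γ] :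
    (Amenable Γ → ∀ (d : ℕ) (s : Fin d → Γ) (κ : ℝ), 0 < κ → ∃ ε : ℝ, 0 < ε ∧
      ∀ (Ω : Type) [Fintype Ω] [Nonempty Ω] [MulAction Γ Ω] (U W ι : Type) [Fintype ι]
        [Nonempty ι] (I : Game U W Ω ι), (∀ e, ∃ k, I.perm e = MulAction.toPerm (s k)) →
        ∀ (D : ℕ) (a : U → Ω → Fin D → ℝ) (b : W → Ω → Fin D → ℝ), (∀ u, IsSys (a u)) →
          (∀ w, IsSys (b w)) →
          1 - ε ≤ (𝔼 e, ∑ ω, ∑ i, a (I.src e) ω i * b (I.dst e) (I.perm e ω) i) →
          1 - κ ≤ I.value) ∧
    (ResFinite Γ → ¬ Amenable Γ → ∀ δ : ℝ, 0 < δ → ∃ (r : ℕ) (g : Fin r → Γ),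
      ∀ (t : ℕ), 1 ≤ t →
      ∃ (Ω : Type) (_ : Fintype Ω) (_ : Nonempty Ω) (_ : MulAction Γ Ω) (M : ℝ),
        ∀ (U W Λ ι : Type) [Fintype Λ] [DecidableEq Λ] [Nonempty Λ] [Fintype ι] [Nonempty ι]
          (I : Game U W Λ ι),
          (∀ p, ∃ k, (longGame t (fun k => (MulAction.toPerm (g k) : Equiv.Perm Ω)) I).perm p =
            MulAction.toPerm (g k)) ∧
          (1 - 1 / (t : ℝ)) * I.value ≤
            (longGame t (fun k => (MulAction.toPerm (g k) : Equiv.Perm Ω)) I).value ∧
          (longGame t (fun k => (MulAction.toPerm (g k) : Equiv.Perm Ω)) I).value ≤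
            δ + M * I.value) :=
  ⟨fun hG _ s κ hκ => easy s (hG _ s) κ hκ, fun hres hG δ hδ => hard hres hG δ hδ⟩

end Pool.Agent.P325f1f.Amen.Reserve
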